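import Pool.Agent.helper36.MD.Tower

/-!
From boards to the degree game on a simple graph; asymptotics of the tower.
-/

set_option autoImplicit false
set_option linter.unusedSectionVars false
set_option linter.unusedVariables false
open Finset

namespace Pool.Agent.helper36.MD

section bridge

variable {V : Type} [Fintype V] [DecidableEq V] (G : SimpleGraph V) [DecidableRel G.Adj]

/-- first end of an edge -/
noncomputable def e1 (e : Sym2 V) : V := (Quot.out e).1
/-- second end of an edge -/
noncomputable def e2 (e : Sym2 V) : V := (Quot.out e).2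

theorem mk_ends (e : Sym2 V) : s(e1 e, e2 e) = e := by
  have : s((Quot.out e).1, (Quot.out e).2) = e := by
    have h := Quot.out_eq e
    exact h
  exact this

theorem mem_iff_ends (e : Sym2 V) (v : V) : v ∈ e ↔ (e1 e = v ∨ e2 e = v) := by
  conv_lhs => rw [← mk_ends e]
  rw [Sym2.mem_iff]
  constructor
  · rintro (h | h)
    · exact Or.inl h.symm
    · exact Or.inr h.symm
  · rintro (h | h)
    · exact Or.inl h.symm
    · exact Or.inr h.symm

theorem dg_eq_filter (X : Finset (Sym2 V)) (v : V) :
    dg e1 e2 X v = (X.filter (fun e => v ∈ e)).card := by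
  unfold dg
  congr 1
  ext e
  rw [mem_filter, mem_filter, mem_iff_ends]

theorem dg_edgeFinset (v : V) : dg e1 e2 G.edgeFinset v = G.degree v := by
  rw [dg_eq_filter, ← SimpleGraph.card_incidenceFinset_eq_degree,
    SimpleGraph.incidenceFinset_eq_filter]

theorem ends_ne {e : Sym2 V} (he : e ∈ G.edgeFinset) : e1 e ≠ e2 e := by
  rw [SimpleGraph.mem_edgeFinset, ← mk_ends e, SimpleGraph.mem_edgeSet] at he
  exact he.ne

/-- from a strategy on the board of all edges to the game -/
theorem game_of_strat {η : ℝ} (h : Strat G.edgeFinset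
    (fun M B => ∀ v, (lead e1 e2 M B v : ℝ) ≤ η * dg e1 e2 G.edgeFinset v)) :
    MakerWins G.edgeFinset
      (fun M => ∀ v, (1 - η) / 2 * (G.degree v : ℝ) ≤ ((M.filter (fun e => v ∈ e)).card : ℝ))
      G.edgeFinset.card true ∅ ∅ := by
  refine h.wins fun M B hM hB hMB hE hl v => ?_
  have h1 := dg_split (s := e1) (t := e2) hM hB hMB hE v
  have h2 := hl v
  rw [← dg_eq_filter, ← dg_edgeFinset G v]
  unfold lead at h2
  push_cast at h2
  have h3 : ((dg e1 e2 M v : ℝ) + dg e1 e2 B v) = dg e1 e2 G.edgeFinset v := by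
    exact_mod_cast h1
  linarith

theorem game_of_PP {d : ℕ} {η : ℝ} (hd : ∀ v, d ≤ G.degree v)
    (h : PP (Fintype.card V) d η) :
    MakerWins G.edgeFinset
      (fun M => ∀ v, (1 - η) / 2 * (G.degree v : ℝ) ≤ ((M.filter (fun e => v ∈ e)).card : ℝ))
      G.edgeFinset.card true ∅ ∅ := by
  refine game_of_strat G (h _ _ e1 e2 G.edgeFinset (fun e he => ends_ne G he) ?_ ?_ ?_)
  · exact card_le_univ _
  · intro v
    right
    rw [dg_edgeFinset]
    exact hd v
  · intro v
    rw [dg_edgeFinset]
    exact (G.degree_lt_card_verts v).le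

end bridge

theorem MakerWins.mono {ε : Type} [DecidableEq ε] {E : Finset ε} {goal goal' : Finset ε → Prop}
    (h : ∀ M, goal M → goal' M) : ∀ (k : ℕ) (turn : Bool) (M B : Finset ε),
      MakerWins E goal k turn M B → MakerWins E goal' k turn M B := by
  intro k
  induction k with
  | zero => intro turn M B hw; exact h M hw
  | succ k ih =>
    intro turn M B hw
    cases turn with
    | true =>
      obtain ⟨e, he, hw⟩ := hw
      exact ⟨e, he, ih _ _ _ hw⟩
    | false => exact fun e he => ih _ _ _ (hw e he)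

theorem iterate_exp_mono (j : ℕ) {x y : ℝ} (h : x ≤ y) : Real.exp^[j] x ≤ Real.exp^[j] y :=
  Real.exp_monotone.iterate j h

open Filter in
/-- the numerical condition holds for towers of height `log d / (2 log log d)` -/
theorem asymp {κ : ℝ} (h0 : 0 < κ) (h1 : κ ≤ 1) : ∀ᶠ d : ℕ in atTop,
    1280 * Real.log (4 * d) ≤
      (κ / (4 * (⌊Real.log d / (2 * Real.log (Real.log d))⌋₊ : ℝ) + 1)) ^
        (⌊Real.log d / (2 * Real.log (Real.log d))⌋₊ + 2) * d := by
  have hlog := Real.tendsto_log_atTop
  have E1 : ∀ᶠ y : ℝ in atTop, 4 ≤ Real.log y := hlog.eventually_ge_atTop 4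
  have E2 : ∀ᶠ y : ℝ in atTop, 4 * Real.log (1 / κ) ≤ Real.log y := hlog.eventually_ge_atTop _
  have E3 : ∀ᶠ y : ℝ in atTop, ‖Real.log y‖ ≤ (1 / 100) * ‖id y‖ :=
    Real.isLittleO_log_id_atTop.bound (by norm_num)
  have E4 : ∀ᶠ y : ℝ in atTop, 10 * Real.log 2560 + 10 ≤ y := eventually_ge_atTop _
  have hcomp : Tendsto (fun d : ℕ => Real.log (d : ℝ)) atTop atTop :=
    hlog.comp tendsto_natCast_atTop_atTop
  filter_upwards [hcomp.eventually E1, hcomp.eventually E2, hcomp.eventually E3,
    hcomp.eventually E4, eventually_ge_atTop 1] with d a1 a2 a3 a4 a5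
  set y : ℝ := Real.log d with hy
  set j : ℕ := ⌊y / (2 * Real.log y)⌋₊ with hj
  have hd : (1 : ℝ) ≤ d := by exact_mod_cast a5
  have hl0 : 0 < Real.log 2560 := Real.log_pos (by norm_num)
  have hy10 : 10 ≤ y := by linarith
  have hly : Real.log y ≤ y / 100 := by
    rw [Real.norm_of_nonneg (by linarith), id, Real.norm_of_nonneg (by linarith)] at a3
    linarith
  have hj1 : (j : ℝ) ≤ y / (2 * Real.log y) := Nat.floor_le (by positivity)
  have hj2 : (j : ℝ) * (2 * Real.log y) ≤ y := by
    rwa [le_div_iff₀ (by linarith)] at hj1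
  have hj8 : (j : ℝ) * 8 ≤ y := by
    have : (j : ℝ) * 8 ≤ j * (2 * Real.log y) :=
      mul_le_mul_of_nonneg_left (by linarith) (by positivity)
    linarith
  have hκ1 : 1 ≤ 1 / κ := by rw [le_div_iff₀ h0]; linarith
  set δ : ℝ := κ / (4 * (j : ℝ) + 1) with hδ
  have hδ0 : 0 < δ := by positivity
  have hlogδ : -(5 / 4 * Real.log y) ≤ Real.log δ := by
    have e1 : Real.log δ = Real.log κ - Real.log (4 * j + 1) := by
      rw [hδ, Real.log_div h0.ne' (by positivity)]
    have e2 : Real.log (1 / κ) = -Real.log κ := by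
      rw [one_div, Real.log_inv]
    have e3 : Real.log (4 * j + 1) ≤ Real.log y :=
      Real.log_le_log (by positivity) (by linarith)
    rw [e1]
    rw [e2] at a2
    linarith
  have hcalc : Real.log (1280 * Real.log (4 * d)) ≤ Real.log (δ ^ (j + 2) * d) := by
    have e1 : Real.log (4 * d) = Real.log 4 + y := by
      rw [Real.log_mul (by norm_num) (by linarith)]
    have e2 : Real.log 4 ≤ y := by
      have h4 : Real.log 4 ≤ 4 - 1 := Real.log_le_sub_one_of_pos (by norm_num)
      linarith
    have e3 : Real.log (1280 * Real.log (4 * d)) ≤ Real.log 2560 + Real.log y := by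
      rw [← Real.log_mul (by norm_num) (by linarith)]
      refine Real.log_le_log ?_ ?_
      · have : 0 < Real.log 4 := Real.log_pos (by norm_num)
        rw [e1]; positivity
      · rw [e1]; linarith
    have e4 : Real.log (δ ^ (j + 2) * d) = ((j : ℝ) + 2) * Real.log δ + y := by
      rw [Real.log_mul (by positivity) (by linarith), Real.log_pow]
      push_cast
      rfl
    have e5 : ((j : ℝ) + 2) * -(5 / 4 * Real.log y) ≤ ((j : ℝ) + 2) * Real.log δ :=
      mul_le_mul_of_nonneg_left hlogδ (by positivity)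
    rw [e4]
    nlinarith [hj2, e3, e5, hly, a4]
  have hpos : 0 < 1280 * Real.log (4 * d) := by
    have : 0 < Real.log (4 * d) := Real.log_pos (by linarith)
    linarith
  exact (Real.log_le_log_iff hpos (by positivity)).1 hcalc

end Pool.Agent.helper36.MD
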