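import Pool.Agent.helper36.MD.Graph

/-!
Locally minimizing sets of `phi R = p |R \ H| - e(R)` and the active set.
-/

set_option autoImplicit false
set_option linter.unusedSectionVars false
set_option linter.unusedVariables false
open Finset

namespace Pool.Agent.helper36.MD

variable {ε : Type} [DecidableEq ε] {V : Type} [DecidableEq V] (s t : ε → V)

/-- `p |R \ H| - e(R)` -/
def phi (p : ℕ) (E : Finset ε) (H R : Finset V) : ℤ := p * ((R \ H).card : ℤ) - eIn s t E R

/-- minimizing among its subsets -/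
def LM (p : ℕ) (E : Finset ε) (H R : Finset V) : Prop :=
  ∀ S ⊆ R, phi s t p E H R ≤ phi s t p E H S

open scoped Classical in
/-- connected, small, locally minimizing sets -/
noncomputable def fam [Fintype V] (p L : ℕ) (E : Finset ε) (H : Finset V) :
    Finset (Finset V) :=
  univ.filter (fun R => Conn s t E R ∧ R.card ≤ 2 * L ∧ LM s t p E H R)

/-- the active set -/
noncomputable def act [Fintype V] (p L : ℕ) (E : Finset ε) (H : Finset V) : Finset V :=
  (fam s t p L E H).biUnion id

variable {s t} {p : ℕ} {E : Finset ε} {H : Finset V}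

theorem phi_empty : phi s t p E H ∅ = 0 := by simp [phi, eIn_empty]

theorem phi_union_inter (P Q : Finset V) :
    phi s t p E H (P ∪ Q) + phi s t p E H (P ∩ Q) =
      phi s t p E H P + phi s t p E H Q - cross s t E (P \ Q) (Q \ P) := by
  have h1 := eIn_union_inter (s := s) (t := t) E P Q
  have h2 : ((P ∪ Q) \ H).card + ((P ∩ Q) \ H).card = (P \ H).card + (Q \ H).card := by
    have e1 : (P ∪ Q) \ H = (P \ H) ∪ (Q \ H) := union_sdiff_distrib _ _ _
    have e2 : (P ∩ Q) \ H = (P \ H) ∩ (Q \ H) := by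
      ext x
      simp only [mem_inter, mem_sdiff]
      tauto
    rw [e1, e2]
    exact card_union_add_card_inter _ _
  have h2' : (((P ∪ Q) \ H).card : ℤ) + ((P ∩ Q) \ H).card = (P \ H).card + (Q \ H).card := by
    exact_mod_cast h2
  have h1' : (eIn s t E (P ∪ Q) : ℤ) + eIn s t E (P ∩ Q) =
      eIn s t E P + eIn s t E Q + cross s t E (P \ Q) (Q \ P) := by exact_mod_cast h1
  unfold phi
  have h3 : (p : ℤ) * (((P ∪ Q) \ H).card : ℤ) + p * ((P ∩ Q) \ H).card =
    p * (P \ H).card + p * (Q \ H).card := by rw [← mul_add, h2', mul_add]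
  linarith

theorem phi_submod (P Q : Finset V) :
    phi s t p E H (P ∪ Q) + phi s t p E H (P ∩ Q) ≤
      phi s t p E H P + phi s t p E H Q := by
  have := phi_union_inter (s := s) (t := t) (p := p) (E := E) (H := H) P Q
  have h : (0 : ℤ) ≤ cross s t E (P \ Q) (Q \ P) := by positivity
  linarith

theorem phi_disjoint {P Q : Finset V} (h : Disjoint P Q) (hc : cross s t E P Q = 0) :
    phi s t p E H (P ∪ Q) = phi s t p E H P + phi s t p E H Q := by
  have h1 := phi_union_inter (s := s) (t := t) (p := p) (E := E) (H := H) P Q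
  rw [disjoint_iff_inter_eq_empty.1 h, phi_empty, sdiff_eq_self_of_disjoint h,
    sdiff_eq_self_of_disjoint h.symm, hc] at h1
  simpa using h1

theorem LM.union {P Q : Finset V} (hP : LM s t p E H P) (hQ : LM s t p E H Q) :
    LM s t p E H (P ∪ Q) := by
  intro S hS
  have h1 := phi_submod (s := s) (t := t) (p := p) (E := E) (H := H) S P
  have h2 := hP (S ∩ P) inter_subset_right
  have h3 := phi_submod (s := s) (t := t) (p := p) (E := E) (H := H) (S ∪ P) Q
  have h4 := hQ ((S ∪ P) ∩ Q) inter_subset_right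
  have h5 : S ∪ P ∪ Q = P ∪ Q := by
    ext x
    have := @hS x
    simp only [mem_union] at this ⊢
    tauto
  rw [h5] at h3
  linarith

theorem LM.empty : LM s t p E H ∅ := by
  intro S hS
  rw [subset_empty.1 hS]

theorem LM.biUnion {ι : Type} [DecidableEq ι] (I : Finset ι) (U : ι → Finset V)
    (hU : ∀ i ∈ I, LM s t p E H (U i)) : LM s t p E H (I.biUnion U) := by
  induction I using Finset.induction_on with
  | empty => simpa using LM.empty
  | insert i I hi ih =>
    rw [biUnion_insert]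
    exact (hU i (mem_insert_self _ _)).union (ih fun j hj => hU j (mem_insert_of_mem hj))

theorem LM.phi_nonpos {R : Finset V} (h : LM s t p E H R) : phi s t p E H R ≤ 0 := by
  have := h ∅ (empty_subset _)
  rwa [phi_empty] at this

variable [Fintype V] {L q : ℕ}

theorem mem_fam {R : Finset V} :
    R ∈ fam s t p L E H ↔ Conn s t E R ∧ R.card ≤ 2 * L ∧ LM s t p E H R := by
  unfold fam
  simp only [mem_filter, mem_univ, true_and]

theorem subset_act {R : Finset V} (h : R ∈ fam s t p L E H) : R ⊆ act s t p L E H :=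
  subset_biUnion_of_mem id h

theorem LM.act : LM s t p E H (act s t p L E H) := by
  classical
  unfold MD.act
  exact LM.biUnion _ _ fun R hR => (mem_fam.1 hR).2.2

/-- `H ⊆ A` -/
theorem H_subset_act (hE : ∀ e ∈ E, s e ≠ t e) (hL : 1 ≤ L) : H ⊆ act s t p L E H := by
  intro v hv
  have : ({v} : Finset V) ∈ fam s t p L E H := by
    rw [mem_fam]
    refine ⟨Conn.singleton E v, by simp; omega, ?_⟩
    intro S hS
    have h1 : phi s t p E H {v} = 0 := by
      unfold phi
      have h1 : ({v} : Finset V) \ H = ∅ := by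
        rw [sdiff_eq_empty_iff_subset]; simpa using hv
      have h2 : eIn s t E {v} = 0 := by
        unfold eIn
        rw [card_eq_zero, filter_eq_empty_iff]
        rintro e he ⟨h1, h2⟩
        exact hE e he (by rw [mem_singleton.1 h1, mem_singleton.1 h2])
      rw [h1, h2]; simp
    rcases subset_singleton_iff.1 hS with h | h
    · rw [h, phi_empty, h1]
    · rw [h]
  exact subset_act this (mem_singleton_self v)

/-- monotonicity of the active set -/
theorem act_mono {H' : Finset V} (h : H ⊆ H') : act s t p L E H ⊆ act s t p L E H' := by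
  unfold act
  refine biUnion_subset_biUnion_of_subset_left _ fun R hR => ?_
  rw [mem_fam] at hR ⊢
  refine ⟨hR.1, hR.2.1, fun S hS => ?_⟩
  have h1 := hR.2.2 S hS
  have key : ∀ T : Finset V, phi s t p E H' T = phi s t p E H T - p * (T ∩ (H' \ H)).card := by
    intro T
    unfold phi
    have : (T \ H).card = (T \ H').card + (T ∩ (H' \ H)).card := by
      rw [← card_union_of_disjoint]
      · congr 1
        ext x
        have := @h x
        simp only [mem_sdiff, mem_union, mem_inter]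
        tauto
      · rw [disjoint_left]
        intro x hx hx'
        simp only [mem_sdiff, mem_inter] at hx hx'
        tauto
    rw [this]
    push_cast
    ring
  rw [key, key]
  have h2 : (S ∩ (H' \ H)).card ≤ (R ∩ (H' \ H)).card :=
    card_le_card (inter_subset_inter_right hS)
  have h3 : (p : ℤ) * (S ∩ (H' \ H)).card ≤ p * (R ∩ (H' \ H)).card :=
    mul_le_mul_of_nonneg_left (by exact_mod_cast h2) (by positivity)
  linarith

/-- The standing assumptions on the pair `(E, H)`. -/
structure Good (s t : ε → V) (p q L : ℕ) (E : Finset ε) (H : Finset V) : Prop where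
  hE : ∀ e ∈ E, s e ≠ t e
  hL : 1 ≤ L
  hpq : q < p
  /-- small sets are sparse -/
  sp : ∀ X : Finset V, (∀ R ⊆ X, Conn s t E R → R.card ≤ 2 * L) → eIn s t E X ≤ q * X.card
  /-- few vertices of `H` in large connected sets -/
  few : ∀ R : Finset V, Conn s t E R → L ≤ R.card → 2 * p * (R ∩ H).card < (p - q) * R.card

variable (hG : Good s t p q L E H)

include hG

theorem Good.card_lt {R : Finset V} (hR : R ∈ fam s t p L E H) : R.card < L := by
  rw [mem_fam] at hR
  by_contra hc
  push Not at hc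
  have h1 := hG.few R hR.1 hc
  have h2 := hG.sp R fun S hS _ => (card_le_card hS).trans hR.2.1
  have h3 := hR.2.2.phi_nonpos
  unfold phi at h3
  have h4 : (R \ H).card + (R ∩ H).card = R.card := card_sdiff_add_card_inter R H
  have h5 : p * (R \ H).card ≤ eIn s t E R := by
    have : (p : ℤ) * ((R \ H).card : ℤ) ≤ eIn s t E R := by linarith
    exact_mod_cast this
  obtain ⟨k, hk⟩ : ∃ k, p = q + k := ⟨p - q, by have := hG.hpq; omega⟩
  have h6 : p - q = k := by omega
  rw [h6] at h1
  subst hk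
  have h7 : (q + k) * (R \ H).card + (q + k) * (R ∩ H).card = (q + k) * R.card := by
    rw [← mul_add, h4]
  nlinarith

theorem Good.exists_max {v : V} (hv : v ∈ act s t p L E H) :
    ∃ U ∈ fam s t p L E H, v ∈ U ∧ ∀ U' ∈ fam s t p L E H, U ⊆ U' → U' = U := by
  classical
  obtain ⟨R, hR, hvR⟩ := mem_biUnion.1 hv
  have hne : ((fam s t p L E H).filter (fun U => v ∈ U)).Nonempty :=
    ⟨R, mem_filter.2 ⟨hR, hvR⟩⟩
  obtain ⟨U, hU, hmax⟩ := exists_max_image _ card hne
  rw [mem_filter] at hU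
  refine ⟨U, hU.1, hU.2, fun U' hU' hs => ?_⟩
  have := hmax U' (mem_filter.2 ⟨hU', hs hU.2⟩)
  exact (eq_of_subset_of_card_le hs this).symm

/-- a maximal member has no edge to the rest of the active set -/
theorem Good.closed {U : Finset V} (hU : U ∈ fam s t p L E H)
    (hmax : ∀ U' ∈ fam s t p L E H, U ⊆ U' → U' = U) :
    ∀ e ∈ E, ¬ ((s e ∈ U ∧ t e ∈ act s t p L E H \ U) ∨
      (t e ∈ U ∧ s e ∈ act s t p L E H \ U)) := by
  intro e he h
  have hw : ∃ w ∈ act s t p L E H \ U, (s e ∈ U ∧ t e = w) ∨ (t e ∈ U ∧ s e = w) := by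
    rcases h with h | h
    · exact ⟨t e, h.2, Or.inl ⟨h.1, rfl⟩⟩
    · exact ⟨s e, h.2, Or.inr ⟨h.1, rfl⟩⟩
  obtain ⟨w, hw, h'⟩ := hw
  rw [mem_sdiff] at hw
  obtain ⟨R, hR, hwR⟩ := mem_biUnion.1 hw.1
  simp only [id] at hwR
  have hUR : U ∪ R ∈ fam s t p L E H := by
    have hU1 := mem_fam.1 hU
    have hR1 := mem_fam.1 hR
    rw [mem_fam]
    refine ⟨hU1.1.union hR1.1 (Or.inr ⟨e, he, ?_⟩), ?_, hU1.2.2.union hR1.2.2⟩
    · rcases h' with h' | h'
      · left; exact ⟨h'.1, h'.2 ▸ hwR⟩
      · right; exact ⟨h'.1, h'.2 ▸ hwR⟩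
    · have h1 := hG.card_lt hU
      have h2 := hG.card_lt hR
      have h3 := card_union_le U R
      omega
  have := hmax _ hUR subset_union_left
  exact hw.2 (by rw [← this]; exact mem_union_right _ hwR)

/-- connected subsets of the active set are small -/
theorem Good.conn_card_lt {R : Finset V} (hR : Conn s t E R) (hA : R ⊆ act s t p L E H) :
    R.card < L := by
  obtain ⟨v, hv⟩ := hR.1
  obtain ⟨U, hU, hvU, hmax⟩ := hG.exists_max (hA hv)
  have hRU : R ⊆ U := by
    by_contra hns
    obtain ⟨e, he, h⟩ := hR.exit ⟨v, mem_inter.2 ⟨hv, hvU⟩⟩ hns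
    refine hG.closed hU hmax e he ?_
    rcases h with ⟨h1, h2⟩ | ⟨h1, h2⟩
    · left
      exact ⟨(mem_inter.1 h1).2, mem_sdiff.2 ⟨hA (mem_sdiff.1 h2).1, (mem_sdiff.1 h2).2⟩⟩
    · right
      exact ⟨(mem_inter.1 h1).2, mem_sdiff.2 ⟨hA (mem_sdiff.1 h2).1, (mem_sdiff.1 h2).2⟩⟩
  exact (card_le_card hRU).trans_lt (hG.card_lt hU)

/-- the main lemma: small sets outside the active set do not decrease `phi` -/
theorem Good.phi_union_ge {N : Finset V} (hN : Disjoint N (act s t p L E H))
    (hs : ∀ R ⊆ N, Conn s t E R → R.card < L) :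
    phi s t p E H (act s t p L E H) ≤ phi s t p E H (act s t p L E H ∪ N) := by
  classical
  set A := act s t p L E H with hA
  by_contra hlt
  push Not at hlt
  -- a minimal violator
  have hne : (N.powerset.filter (fun N' => phi s t p E H (A ∪ N') < phi s t p E H A)).Nonempty :=
    ⟨N, mem_filter.2 ⟨mem_powerset_self N, hlt⟩⟩
  obtain ⟨N₁, hN₁, hmin⟩ := exists_min_image _ card hne
  rw [mem_filter, mem_powerset] at hN₁
  obtain ⟨hN₁N, hlt₁⟩ := hN₁
  have hmin' : ∀ N' ⊆ N₁, N' ≠ N₁ → phi s t p E H A ≤ phi s t p E H (A ∪ N') := by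
    intro N' hs' hne'
    by_contra hc
    push Not at hc
    have h1 := hmin N' (mem_filter.2 ⟨mem_powerset.2 (hs'.trans hN₁N), hc⟩)
    exact hne' (eq_of_subset_of_card_le hs' h1)
  have hN₁ne : N₁.Nonempty := by
    rw [nonempty_iff_ne_empty]
    rintro rfl
    simp at hlt₁
  have hN₁A : Disjoint N₁ A := disjoint_of_subset_left hN₁N hN
  -- `N₁` is connected
  have hconn : Conn s t E N₁ := by
    by_contra hnc
    obtain ⟨S, hS, hSne, hSneq, hcross⟩ := not_conn hN₁ne hnc
    have h1 := phi_union_inter (s := s) (t := t) (p := p) (E := E) (H := H) (A ∪ S)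
      (A ∪ (N₁ \ S))
    have hd : ∀ {X : Finset V}, X ⊆ N₁ → ∀ x ∈ X, x ∉ A := fun {X} hX x hx =>
      disjoint_left.1 hN₁A (hX hx)
    have e1 : (A ∪ S) ∪ (A ∪ (N₁ \ S)) = A ∪ N₁ := by
      ext x
      have := @hS x
      simp only [mem_union, mem_sdiff]
      tauto
    have e2 : (A ∪ S) ∩ (A ∪ (N₁ \ S)) = A := by
      ext x
      simp only [mem_union, mem_sdiff, mem_inter]
      tauto
    have e3 : (A ∪ S) \ (A ∪ (N₁ \ S)) = S := by
      ext x
      have h1 := @hS x
      have h2 := @hd S hS x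
      simp only [mem_union, mem_sdiff]
      tauto
    have e4 : (A ∪ (N₁ \ S)) \ (A ∪ S) = N₁ \ S := by
      ext x
      have h2 := @hd N₁ (Subset.refl _) x
      simp only [mem_union, mem_sdiff]
      tauto
    rw [e1, e2, e3, e4, hcross] at h1
    have h2 := hmin' S hS hSneq
    have h3 := hmin' (N₁ \ S) sdiff_subset (by
      intro h
      obtain ⟨x, hx⟩ := hSne
      have h5 : x ∈ N₁ \ S := by rw [h]; exact hS hx
      exact (mem_sdiff.1 h5).2 hx)
    push_cast at h1
    linarith
  -- `A ∪ N₁` is locally minimizing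
  have hLM : LM s t p E H (A ∪ N₁) := by
    intro Y hY
    have h1 := phi_submod (s := s) (t := t) (p := p) (E := E) (H := H) Y A
    have h2 : phi s t p E H A ≤ phi s t p E H (Y ∩ A) := LM.act (Y ∩ A) inter_subset_right
    have h3 : Y ∪ A = A ∪ (Y ∩ N₁) := by
      ext x
      have := @hY x
      simp only [mem_union, mem_inter] at this ⊢
      tauto
    rw [h3] at h1
    by_cases h4 : Y ∩ N₁ = N₁
    · rw [h4] at h1
      linarith
    · have := hmin' _ inter_subset_right h4
      linarith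
  -- the maximal members adjacent to `N₁`
  have hU : ∀ v : V, ∃ U : Finset V, v ∈ A → U ∈ fam s t p L E H ∧ v ∈ U ∧
      ∀ U' ∈ fam s t p L E H, U ⊆ U' → U' = U := by
    intro v
    by_cases hv : v ∈ A
    · obtain ⟨U, h1, h2, h3⟩ := hG.exists_max hv
      exact ⟨U, fun _ => ⟨h1, h2, h3⟩⟩
    · exact ⟨∅, fun h => absurd h hv⟩
  choose U hU using hU
  set J : Finset V := A.filter (fun v => ∃ e ∈ E, (s e ∈ N₁ ∧ t e = v) ∨ (t e ∈ N₁ ∧ s e = v))
    with hJ
  set X : Finset V := J.biUnion U with hX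
  have hJA : ∀ v ∈ J, v ∈ A := fun v hv => (mem_filter.1 hv).1
  have hXA : X ⊆ A := by
    intro x hx
    obtain ⟨v, hv, hxv⟩ := mem_biUnion.1 hx
    exact subset_act (hU v (hJA v hv)).1 hxv
  have hXLM : LM s t p E H X := LM.biUnion _ _ fun v hv => (mem_fam.1 (hU v (hJA v hv)).1).2.2
  have hR'conn : Conn s t E (N₁ ∪ X) := by
    refine hconn.biUnion J U (fun v hv => (mem_fam.1 (hU v (hJA v hv)).1).1) fun v hv => ?_
    obtain ⟨-, e, he, h⟩ := mem_filter.1 hv
    refine ⟨e, he, ?_⟩
    have hvU := (hU v (hJA v hv)).2.1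
    rcases h with ⟨h1, h2⟩ | ⟨h1, h2⟩
    · left; exact ⟨h1, h2 ▸ hvU⟩
    · right; exact ⟨h1, h2 ▸ hvU⟩
  -- no edges between `N₁ ∪ X` and `A \ X`
  have hno : ∀ e ∈ E, ¬ ((s e ∈ N₁ ∪ X ∧ t e ∈ A \ X) ∨ (s e ∈ A \ X ∧ t e ∈ N₁ ∪ X)) := by
    have key : ∀ e ∈ E, ∀ x y : V, ((s e = x ∧ t e = y) ∨ (t e = x ∧ s e = y)) →
        x ∈ N₁ ∪ X → y ∈ A \ X → False := by
      intro e he x y hxy hx hy
      rw [mem_sdiff] at hy
      rcases mem_union.1 hx with hx | hx
      · have hyJ : y ∈ J := by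
          refine mem_filter.2 ⟨hy.1, e, he, ?_⟩
          rcases hxy with ⟨h1, h2⟩ | ⟨h1, h2⟩
          · left; exact ⟨h1 ▸ hx, h2⟩
          · right; exact ⟨h1 ▸ hx, h2⟩
        exact hy.2 (mem_biUnion.2 ⟨y, hyJ, (hU y hy.1).2.1⟩)
      · obtain ⟨v, hv, hxv⟩ := mem_biUnion.1 hx
        have hyU : y ∉ U v := fun h => hy.2 (mem_biUnion.2 ⟨v, hv, h⟩)
        refine hG.closed (hU v (hJA v hv)).1 (hU v (hJA v hv)).2.2 e he ?_
        rcases hxy with ⟨h1, h2⟩ | ⟨h1, h2⟩
        · left; exact ⟨h1 ▸ hxv, mem_sdiff.2 ⟨h2 ▸ hy.1, h2 ▸ hyU⟩⟩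
        · right; exact ⟨h1 ▸ hxv, mem_sdiff.2 ⟨h2 ▸ hy.1, h2 ▸ hyU⟩⟩
    rintro e he (⟨h1, h2⟩ | ⟨h1, h2⟩)
    · exact key e he _ _ (Or.inl ⟨rfl, rfl⟩) h1 h2
    · exact key e he _ _ (Or.inr ⟨rfl, rfl⟩) h2 h1
  have hdecomp : ∀ S ⊆ N₁ ∪ X, phi s t p E H (S ∪ (A \ X)) =
      phi s t p E H S + phi s t p E H (A \ X) := by
    intro S hS
    refine phi_disjoint ?_ (cross_eq_zero fun e he h => ?_)
    · rw [disjoint_left]
      intro x hx hx'
      rw [mem_sdiff] at hx'
      rcases mem_union.1 (hS hx) with h | h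
      · exact disjoint_left.1 hN₁A h hx'.1
      · exact hx'.2 h
    · refine hno e he ?_
      rcases h with ⟨h1, h2⟩ | ⟨h1, h2⟩
      · left; exact ⟨hS h1, h2⟩
      · right; exact ⟨h1, hS h2⟩
  have hR'LM : LM s t p E H (N₁ ∪ X) := by
    intro S hS
    have h1 := hdecomp S hS
    have h2 := hdecomp _ (Subset.refl (N₁ ∪ X))
    have h3 : N₁ ∪ X ∪ (A \ X) = A ∪ N₁ := by
      ext x
      have := @hXA x
      simp only [mem_union, mem_sdiff]
      tauto
    rw [h3] at h2
    have h4 := hLM (S ∪ (A \ X)) (by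
      intro x hx
      rcases mem_union.1 hx with h | h
      · rcases mem_union.1 (hS h) with h | h
        · exact mem_union_right _ h
        · exact mem_union_left _ (hXA h)
      · exact mem_union_left _ (mem_sdiff.1 h).1)
    linarith
  -- sizes
  have hN₁L : N₁.card < L := hs N₁ hN₁N hconn
  have hNX : Disjoint N₁ X := disjoint_of_subset_right hXA hN₁A
  have hcard : (N₁ ∪ X).card = N₁.card + X.card := card_union_of_disjoint hNX
  have hsmall : (N₁ ∪ X).card ≤ 2 * L := by
    by_contra hbig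
    push Not at hbig
    have h1 := hG.few _ hR'conn (by omega)
    have h2 := hG.sp X fun R hR hc =>
      (hG.conn_card_lt hc (hR.trans hXA)).le.trans (by omega)
    have h3 := hXLM.phi_nonpos
    unfold phi at h3
    have h4 : (X \ H).card + (X ∩ H).card = X.card := card_sdiff_add_card_inter X H
    have h5 : p * (X \ H).card ≤ eIn s t E X := by
      have : (p : ℤ) * ((X \ H).card : ℤ) ≤ eIn s t E X := by linarith
      exact_mod_cast this
    obtain ⟨k, hk⟩ : ∃ k, p = q + k := ⟨p - q, by have := hG.hpq; omega⟩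
    have h6 : p - q = k := by omega
    have hkpos : 0 < k := by have := hG.hpq; omega
    rw [h6] at h1
    have h7 : p * (X \ H).card + p * (X ∩ H).card = p * X.card := by
      rw [← mul_add, h4]
    have h8 : p * (X ∩ H).card ≤ p * ((N₁ ∪ X) ∩ H).card :=
      Nat.mul_le_mul_left _ (card_le_card (inter_subset_inter_right subset_union_right))
    have h9 : k * X.card ≤ p * (X ∩ H).card := by
      have : p * X.card = q * X.card + k * X.card := by rw [hk, add_mul]
      omega
    have h10 : 2 * (k * X.card) < k * (N₁ ∪ X).card := by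
      have : 2 * p * ((N₁ ∪ X) ∩ H).card = 2 * (p * ((N₁ ∪ X) ∩ H).card) := by ring
      omega
    have h11 : 2 * X.card < (N₁ ∪ X).card := by
      have : k * (2 * X.card) < k * (N₁ ∪ X).card := by
        calc k * (2 * X.card) = 2 * (k * X.card) := by ring
          _ < _ := h10
      exact Nat.lt_of_mul_lt_mul_left this
    omega
  have hfin : N₁ ∪ X ∈ fam s t p L E H := mem_fam.2 ⟨hR'conn, hsmall, hR'LM⟩
  obtain ⟨x, hx⟩ := hN₁ne
  exact disjoint_left.1 hN₁A hx (subset_act hfin (mem_union_left _ hx))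

end Pool.Agent.helper36.MD
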