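import Pool.Agent.helper36.MD.Active

/-!
The debt function `ff M B R = ∑_{v ∈ R} (k - lead v) - (number of free edges inside R)`.
-/

set_option autoImplicit false
set_option linter.unusedSectionVars false
set_option linter.unusedVariables false
open Finset

namespace Pool.Agent.helper36.MD

variable {ε : Type} [DecidableEq ε] {V : Type} [DecidableEq V] (s t : ε → V)

/-- the debt function -/
def ff (k : ℕ) (E M B : Finset ε) (R : Finset V) : ℤ :=
  (∑ v ∈ R, ((k : ℤ) - lead s t M B v)) - eIn s t (E \ (M ∪ B)) R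

variable {s t} {k : ℕ} {E M B : Finset ε}

theorem ff_union_inter (P Q : Finset V) :
    ff s t k E M B (P ∪ Q) + ff s t k E M B (P ∩ Q) =
      ff s t k E M B P + ff s t k E M B Q -
        cross s t (E \ (M ∪ B)) (P \ Q) (Q \ P) := by
  have h1 := eIn_union_inter (s := s) (t := t) (E \ (M ∪ B)) P Q
  have h1' : (eIn s t (E \ (M ∪ B)) (P ∪ Q) : ℤ) + eIn s t (E \ (M ∪ B)) (P ∩ Q) =
      eIn s t (E \ (M ∪ B)) P + eIn s t (E \ (M ∪ B)) Q +
        cross s t (E \ (M ∪ B)) (P \ Q) (Q \ P) := by exact_mod_cast h1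
  have h2 := sum_union_inter (s₁ := P) (s₂ := Q) (f := fun v => (k : ℤ) - lead s t M B v)
  unfold ff
  linarith

theorem lead_insert_M {e : ε} (he : e ∉ M) (v : V) :
    lead s t (insert e M) B v = lead s t M B v - if s e = v ∨ t e = v then 1 else 0 := by
  unfold lead
  rw [dg_insert he]
  split_ifs <;> push_cast <;> ring

theorem lead_insert_B {e : ε} (he : e ∉ B) (v : V) :
    lead s t M (insert e B) v = lead s t M B v + if s e = v ∨ t e = v then 1 else 0 := by
  unfold lead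
  rw [dg_insert he]
  split_ifs <;> push_cast <;> ring

theorem sum_inc {e : ε} (he : s e ≠ t e) (R : Finset V) :
    ∑ v ∈ R, (if s e = v ∨ t e = v then (1 : ℤ) else 0) =
      (if s e ∈ R then 1 else 0) + (if t e ∈ R then 1 else 0) := by
  have h1 : ∀ v : V, (if s e = v ∨ t e = v then (1 : ℤ) else 0) =
      (if s e = v then 1 else 0) + (if t e = v then 1 else 0) := by
    intro v
    by_cases ha : s e = v
    · have hb : t e ≠ v := fun hb => he (ha.trans hb.symm)
      simp [ha, hb]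
    · simp [ha]
  simp only [h1]
  rw [sum_add_distrib, sum_ite_eq, sum_ite_eq]

theorem free_insert_M {e : ε} (he : e ∈ E) (heM : e ∉ M) (heB : e ∉ B) :
    E \ (insert e M ∪ B) = (E \ (M ∪ B)).erase e := by
  ext x
  simp only [mem_sdiff, mem_union, mem_insert, mem_erase]
  tauto

theorem free_insert_B {e : ε} (he : e ∈ E) (heM : e ∉ M) (heB : e ∉ B) :
    E \ (M ∪ insert e B) = (E \ (M ∪ B)).erase e := by
  ext x
  simp only [mem_sdiff, mem_union, mem_insert, mem_erase]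
  tauto

theorem mem_free {e : ε} : e ∈ E \ (M ∪ B) ↔ e ∈ E ∧ e ∉ M ∧ e ∉ B := by
  rw [mem_sdiff, mem_union, not_or]

theorem ff_insert_M {e : ε} (hst : s e ≠ t e) (he : e ∈ E) (heM : e ∉ M) (heB : e ∉ B)
    (R : Finset V) :
    ff s t k E (insert e M) B R = ff s t k E M B R + (if s e ∈ R then 1 else 0) +
      (if t e ∈ R then 1 else 0) + (if s e ∈ R ∧ t e ∈ R then 1 else 0) := by
  unfold ff
  rw [free_insert_M he heM heB]
  have h1 := eIn_erase (s := s) (t := t) (mem_free.2 ⟨he, heM, heB⟩ : e ∈ E \ (M ∪ B)) R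
  have h1' : (eIn s t ((E \ (M ∪ B)).erase e) R : ℤ) +
      (if s e ∈ R ∧ t e ∈ R then 1 else 0) = eIn s t (E \ (M ∪ B)) R := by exact_mod_cast h1
  have h2 : ∑ v ∈ R, ((k : ℤ) - lead s t (insert e M) B v) =
      ∑ v ∈ R, ((k : ℤ) - lead s t M B v) +
        ∑ v ∈ R, (if s e = v ∨ t e = v then (1 : ℤ) else 0) := by
    rw [← sum_add_distrib]
    refine sum_congr rfl fun v _ => ?_
    rw [lead_insert_M heM]
    ring
  rw [h2, sum_inc hst]
  linarith

theorem ff_insert_B {e : ε} (hst : s e ≠ t e) (he : e ∈ E) (heM : e ∉ M) (heB : e ∉ B)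
    (R : Finset V) :
    ff s t k E M (insert e B) R = ff s t k E M B R -
      (if s e ∈ R ∨ t e ∈ R then 1 else 0) := by
  unfold ff
  rw [free_insert_B he heM heB]
  have h1 := eIn_erase (s := s) (t := t) (mem_free.2 ⟨he, heM, heB⟩ : e ∈ E \ (M ∪ B)) R
  have h1' : (eIn s t ((E \ (M ∪ B)).erase e) R : ℤ) +
      (if s e ∈ R ∧ t e ∈ R then 1 else 0) = eIn s t (E \ (M ∪ B)) R := by exact_mod_cast h1
  have h2 : ∑ v ∈ R, ((k : ℤ) - lead s t M (insert e B) v) =
      ∑ v ∈ R, ((k : ℤ) - lead s t M B v) -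
        ∑ v ∈ R, (if s e = v ∨ t e = v then (1 : ℤ) else 0) := by
    rw [← sum_sub_distrib]
    refine sum_congr rfl fun v _ => ?_
    rw [lead_insert_B heB]
    ring
  rw [h2, sum_inc hst]
  by_cases h3 : s e ∈ R <;> by_cases h4 : t e ∈ R <;> simp [h3, h4] at h1' ⊢ <;> linarith

/-- the debt of a set compared with the debt of its active part -/
theorem ff_ge_active {p g : ℕ} (hk : k = p + g) (hE : ∀ e ∈ E, s e ≠ t e)
    {M₁ B₁ : Finset ε} (hM₁ : M₁ ⊆ M) (hB₁ : B₁ ⊆ B) (hB : B ⊆ E)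
    {A H : Finset V} (hHA : H ⊆ A) (hH : ∀ v, v ∉ H → lead s t M₁ B₁ v + 1 ≤ g)
    (hi2 : ∀ e ∈ B, e ∉ B₁ → s e ∈ A ∨ t e ∈ A) (R : Finset V) :
    ff s t k E M B (R ∩ A) + (R \ A).card + (phi s t p E H (A ∪ (R \ A)) - phi s t p E H A) ≤
      ff s t k E M B R := by
  set N := R \ A with hN
  have hNA : Disjoint N A := sdiff_disjoint
  -- leads outside `A`
  have h1 : ∀ v ∈ N, lead s t M B v + 1 ≤ g + dg s t (B \ B₁) v := by
    intro v hv
    have hvA : v ∉ A := (mem_sdiff.1 hv).2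
    have h2 := hH v fun h => hvA (hHA h)
    have h3 := dg_mono (s := s) (t := t) hM₁ v
    have h4 : dg s t B v = dg s t B₁ v + dg s t (B \ B₁) v := by
      rw [← dg_union disjoint_sdiff, union_sdiff_of_subset hB₁]
    unfold lead at h2 ⊢
    push_cast [h4]
    have h3' : (dg s t M₁ v : ℤ) ≤ dg s t M v := by exact_mod_cast h3
    linarith
  -- the edge weights
  set w : ε → ℤ := fun e => (if s e ∈ A ∪ N ∧ t e ∈ A ∪ N then 1 else 0) -
    (if s e ∈ A ∧ t e ∈ A then 1 else 0) with hw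
  have hw0 : ∀ e, 0 ≤ w e := by
    intro e
    simp only [hw, mem_union]
    by_cases h1 : s e ∈ A <;> by_cases h2 : t e ∈ A <;> by_cases h3 : s e ∈ N <;>
      by_cases h4 : t e ∈ N <;> simp [h1, h2, h3, h4]
  have hwsum : ∀ X : Finset ε, ∑ e ∈ X, w e = (eIn s t X (A ∪ N) : ℤ) - eIn s t X A := by
    intro X
    simp only [hw, eIn, card_filter]
    rw [sum_sub_distrib]
    push_cast
    rfl
  -- edges of `B \ B₁`
  have h5 : ∑ v ∈ N, (dg s t (B \ B₁) v : ℤ) ≤ ∑ e ∈ B \ B₁, w e := by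
    have h6 := sum_cnt (s := s) (t := t) (X := B \ B₁)
      (fun e he => hE e (hB (mem_sdiff.1 he).1)) N
    have h7 : ∑ v ∈ N, (dg s t (B \ B₁) v : ℤ) = ∑ e ∈ B \ B₁, (cnt s t N e : ℤ) := by
      exact_mod_cast h6.symm
    rw [h7]
    refine sum_le_sum fun e he => ?_
    have h8 := hi2 e (mem_sdiff.1 he).1 (mem_sdiff.1 he).2
    have h9 : s e ∈ N → s e ∉ A := fun h => (mem_sdiff.1 h).2
    have h10 : t e ∈ N → t e ∉ A := fun h => (mem_sdiff.1 h).2
    simp only [hw, cnt, mem_union]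
    by_cases h1 : s e ∈ A <;> by_cases h2 : t e ∈ A <;> by_cases h3 : s e ∈ N <;>
      by_cases h4 : t e ∈ N <;> simp [h1, h2, h3, h4] <;> simp_all
  -- free edges
  have h11 : (eIn s t (E \ (M ∪ B)) R : ℤ) - eIn s t (E \ (M ∪ B)) (R ∩ A) ≤
      ∑ e ∈ E \ (M ∪ B), w e := by
    have h12 : (eIn s t (E \ (M ∪ B)) R : ℤ) - eIn s t (E \ (M ∪ B)) (R ∩ A) =
        ∑ e ∈ E \ (M ∪ B), ((if s e ∈ R ∧ t e ∈ R then (1 : ℤ) else 0) -
          (if s e ∈ R ∩ A ∧ t e ∈ R ∩ A then 1 else 0)) := by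
      simp only [eIn, card_filter]
      rw [sum_sub_distrib]
      push_cast
      rfl
    rw [h12]
    refine sum_le_sum fun e _ => ?_
    simp only [hw, hN, mem_union, mem_inter, mem_sdiff]
    by_cases h1 : s e ∈ A <;> by_cases h2 : t e ∈ A <;> by_cases h3 : s e ∈ R <;>
      by_cases h4 : t e ∈ R <;> simp [h1, h2, h3, h4]
  have h13 : ∑ e ∈ B \ B₁, w e + ∑ e ∈ E \ (M ∪ B), w e ≤ ∑ e ∈ E, w e := by
    rw [← sum_union]
    · refine sum_le_sum_of_subset_of_nonneg ?_ fun e _ _ => hw0 e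
      intro e he
      rcases mem_union.1 he with h | h
      · exact hB (mem_sdiff.1 h).1
      · exact (mem_sdiff.1 h).1
    · rw [disjoint_left]
      intro e h1 h2
      exact (mem_free.1 h2).2.2 (mem_sdiff.1 h1).1
  rw [hwsum E] at h13
  -- sums over vertices
  have h14 : ∑ v ∈ R, ((k : ℤ) - lead s t M B v) =
      ∑ v ∈ R ∩ A, ((k : ℤ) - lead s t M B v) + ∑ v ∈ N, ((k : ℤ) - lead s t M B v) := by
    rw [← sum_union]
    · congr 1
      ext x
      simp only [hN, mem_union, mem_inter, mem_sdiff]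
      tauto
    · rw [disjoint_left]
      intro x h1 h2
      exact (mem_sdiff.1 h2).2 (mem_inter.1 h1).2
  have h15 : ((p : ℤ) + 1) * N.card - ∑ v ∈ N, (dg s t (B \ B₁) v : ℤ) ≤
      ∑ v ∈ N, ((k : ℤ) - lead s t M B v) := by
    have : ((p : ℤ) + 1) * N.card - ∑ v ∈ N, (dg s t (B \ B₁) v : ℤ) =
        ∑ v ∈ N, ((p : ℤ) + 1 - dg s t (B \ B₁) v) := by
      rw [sum_sub_distrib, sum_const, nsmul_eq_mul]
      ring
    rw [this]
    refine sum_le_sum fun v hv => ?_
    have := h1 v hv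
    rw [hk]
    push_cast
    linarith
  have h16 : (((A ∪ N) \ H).card : ℤ) = (A \ H).card + N.card := by
    have : (A ∪ N) \ H = (A \ H) ∪ N := by
      ext x
      have h1 : x ∈ N → x ∉ A := fun h => (mem_sdiff.1 h).2
      have h2 := @hHA x
      simp only [mem_union, mem_sdiff]
      tauto
    rw [this, card_union_of_disjoint]
    · push_cast; ring
    · rw [disjoint_left]
      intro x h1 h2
      exact (mem_sdiff.1 h2).2 (mem_sdiff.1 h1).1
  unfold ff phi
  rw [h16, h14]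
  have h17 : (p : ℤ) * ((A \ H).card + N.card) = p * (A \ H).card + p * N.card := by ring
  have h18 : ((p : ℤ) + 1) * N.card = p * N.card + N.card := by ring
  rw [h17]
  rw [h18] at h15
  linarith

end Pool.Agent.helper36.MD
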