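import Pool.Agent.helper36.MD.Graph

/-!
Site percolation weights of connected sets.
-/

set_option autoImplicit false
set_option linter.unusedSectionVars false
set_option linter.unusedVariables false
open Finset

namespace Pool.Agent.helper36.MD

variable {ε : Type} [DecidableEq ε] {V : Type} [DecidableEq V] (s t : ε → V)

/-- vertices outside `R` with a neighbour in `R` -/
def bd (E : Finset ε) (R : Finset V) : Finset V :=
  ((E.filter (fun e => s e ∈ R)).image t ∪ (E.filter (fun e => t e ∈ R)).image s) \ R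

/-- probability that `R` is a cluster of site percolation -/
noncomputable def cw (ρ : ℝ) (E : Finset ε) (R : Finset V) : ℝ :=
  ρ ^ R.card * (1 - ρ) ^ (bd s t E R).card

variable {s t}

theorem bd_card_le {E : Finset ε} (hE : ∀ e ∈ E, s e ≠ t e) {Δ : ℕ}
    (hΔ : ∀ v, dg s t E v ≤ Δ) (R : Finset V) : (bd s t E R).card ≤ Δ * R.card := by
  have h1 : (bd s t E R).card ≤
      (E.filter (fun e => s e ∈ R)).card + (E.filter (fun e => t e ∈ R)).card := by
    unfold bd
    refine (card_le_card sdiff_subset).trans ((card_union_le _ _).trans ?_)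
    exact add_le_add card_image_le card_image_le
  have h2 : (E.filter (fun e => s e ∈ R)).card + (E.filter (fun e => t e ∈ R)).card =
      ∑ e ∈ E, cnt s t R e := by
    unfold cnt
    rw [card_filter, card_filter, ← sum_add_distrib]
  rw [h2, sum_cnt hE] at h1
  refine h1.trans ((sum_le_sum fun v _ => hΔ v).trans ?_)
  rw [sum_const, smul_eq_mul, mul_comm]

theorem cw_nonneg {ρ : ℝ} (h0 : 0 ≤ ρ) (h1 : ρ ≤ 1) (E : Finset ε) (R : Finset V) :
    0 ≤ cw s t ρ E R :=
  mul_nonneg (pow_nonneg h0 _) (pow_nonneg (by linarith) _)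

theorem cw_lower {E : Finset ε} (hE : ∀ e ∈ E, s e ≠ t e) {Δ : ℕ} (h1 : 1 ≤ Δ)
    (hΔ : ∀ v, dg s t E v ≤ Δ) (R : Finset V) :
    (1 / (4 * (Δ : ℝ))) ^ R.card ≤ cw s t (1 / (2 * (Δ : ℝ))) E R := by
  have hΔ' : (1 : ℝ) ≤ Δ := by exact_mod_cast h1
  set ρ : ℝ := 1 / (2 * (Δ : ℝ)) with hρ
  have hρ0 : 0 ≤ ρ := by positivity
  have hρ1 : ρ ≤ 1 / 2 := by
    rw [hρ, div_le_div_iff₀ (by linarith) (by norm_num)]
    linarith
  have h2 : (1 / 2 : ℝ) ≤ (1 - ρ) ^ Δ := by
    have := one_add_mul_le_pow (a := -ρ) (by linarith) Δ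
    have e1 : (1 : ℝ) + Δ * -ρ = 1 / 2 := by
      rw [hρ]; field_simp; ring
    rw [e1] at this
    simpa [sub_eq_add_neg] using this
  unfold cw
  have h3 : (1 / 2 : ℝ) ^ R.card ≤ (1 - ρ) ^ (bd s t E R).card := by
    calc (1 / 2 : ℝ) ^ R.card ≤ ((1 - ρ) ^ Δ) ^ R.card :=
          pow_le_pow_left₀ (by norm_num) h2 _
      _ = (1 - ρ) ^ (Δ * R.card) := by rw [pow_mul]
      _ ≤ (1 - ρ) ^ (bd s t E R).card :=
          pow_le_pow_of_le_one (by linarith) (by linarith) (bd_card_le hE hΔ R)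
  calc (1 / (4 * (Δ : ℝ))) ^ R.card = ρ ^ R.card * (1 / 2 : ℝ) ^ R.card := by
        rw [← mul_pow, hρ]
        congr 1
        field_simp
        norm_num
    _ ≤ _ := mul_le_mul_of_nonneg_left h3 (pow_nonneg hρ0 _)

theorem perc_sum_le_one [Fintype V] {ρ : ℝ} (h0 : 0 ≤ ρ) (h1 : ρ ≤ 1) (E : Finset ε) (v : V)
    (F : Finset (Finset V)) (hF : ∀ R ∈ F, Conn s t E R ∧ v ∈ R) :
    ∑ R ∈ F, cw s t ρ E R ≤ 1 := by
  set f : Finset V → ℝ := fun ω => ρ ^ ω.card * (1 - ρ) ^ (Fintype.card V - ω.card) with hf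
  have htot : ∑ ω : Finset V, f ω = 1 := by
    rw [hf, Fintype.sum_pow_mul_eq_add_pow]
    simp
  have hf0 : ∀ ω, 0 ≤ f ω := fun ω =>
    mul_nonneg (pow_nonneg h0 _) (pow_nonneg (by linarith) _)
  set W : Finset V → Finset V := fun R => univ \ (R ∪ bd s t E R) with hW
  have hdR : ∀ R : Finset V, Disjoint R (bd s t E R) := fun R => disjoint_sdiff
  have hone : ∀ R ∈ F, cw s t ρ E R = ∑ ω ∈ (W R).powerset, f (R ∪ ω) := by
    intro R _
    have hcW : (W R).card + R.card + (bd s t E R).card = Fintype.card V := by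
      have h2 : (W R).card + (R ∪ bd s t E R).card = Fintype.card V := by
        rw [hW]
        simp only
        rw [card_sdiff_add_card_eq_card (subset_univ _), card_univ]
      rw [card_union_of_disjoint (hdR R)] at h2
      omega
    have h3 : ∀ ω ∈ (W R).powerset, f (R ∪ ω) =
        cw s t ρ E R * (ρ ^ ω.card * (1 - ρ) ^ ((W R).card - ω.card)) := by
      intro ω hω
      rw [mem_powerset] at hω
      have hd : Disjoint R ω := by
        rw [disjoint_left]
        intro x hx hx'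
        have := hω hx'
        simp only [hW, mem_sdiff, mem_union, mem_univ, true_and] at this
        tauto
      have hc : ω.card ≤ (W R).card := card_le_card hω
      simp only [hf]
      rw [card_union_of_disjoint hd]
      have h4 : Fintype.card V - (R.card + ω.card) =
          (bd s t E R).card + ((W R).card - ω.card) := by omega
      rw [h4, pow_add, pow_add]
      unfold cw
      ring
    rw [sum_congr rfl h3, ← mul_sum, sum_pow_mul_eq_add_pow]
    simp
  rw [sum_congr rfl hone, sum_sigma']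
  have hinj : Set.InjOn (fun x : (Σ _ : Finset V, Finset V) => x.1 ∪ x.2)
      (F.sigma fun R => (W R).powerset : Finset (Σ _ : Finset V, Finset V)) := by
    rintro ⟨R, ω⟩ hx ⟨R', ω'⟩ hx' heq
    simp only [coe_sigma, Set.mem_sigma_iff, mem_coe, mem_powerset] at hx hx'
    simp only at heq
    have key : ∀ {R R' ω ω' : Finset V}, R ∈ F → R' ∈ F → ω ⊆ W R → ω' ⊆ W R' →
        R ∪ ω = R' ∪ ω' → R' ⊆ R := by
      intro R R' ω ω' hR hR' hω hω' he
      by_contra hns
      have hv : (R' ∩ R).Nonempty := ⟨v, mem_inter.2 ⟨(hF R' hR').2, (hF R hR).2⟩⟩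
      obtain ⟨e, heE, h⟩ := (hF R' hR').1.exit hv hns
      have hb : ∃ w ∈ R', w ∈ bd s t E R := by
        rcases h with ⟨h1, h2⟩ | ⟨h1, h2⟩
        · refine ⟨t e, (mem_sdiff.1 h2).1, ?_⟩
          unfold bd
          rw [mem_sdiff, mem_union]
          exact ⟨Or.inl (mem_image.2 ⟨e, mem_filter.2 ⟨heE, (mem_inter.1 h1).2⟩, rfl⟩),
            (mem_sdiff.1 h2).2⟩
        · refine ⟨s e, (mem_sdiff.1 h2).1, ?_⟩
          unfold bd
          rw [mem_sdiff, mem_union]
          exact ⟨Or.inr (mem_image.2 ⟨e, mem_filter.2 ⟨heE, (mem_inter.1 h1).2⟩, rfl⟩),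
            (mem_sdiff.1 h2).2⟩
      obtain ⟨w, hw, hwb⟩ := hb
      have hw' : w ∈ R ∪ ω := by rw [he]; exact mem_union_left _ hw
      rcases mem_union.1 hw' with h3 | h3
      · exact disjoint_left.1 (hdR R) h3 hwb
      · have := hω h3
        simp only [hW, mem_sdiff, mem_union, mem_univ, true_and] at this
        exact this (Or.inr hwb)
    have hRR : R = R' :=
      (key hx'.1 hx.1 hx'.2 hx.2 heq.symm).antisymm (key hx.1 hx'.1 hx.2 hx'.2 heq)
    subst hRR
    have hd : ∀ {ω : Finset V}, ω ⊆ W R → Disjoint ω R := by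
      intro ω hω
      rw [disjoint_left]
      intro x hx hx'
      have := hω hx
      simp only [hW, mem_sdiff, mem_union, mem_univ, true_and] at this
      tauto
    have hω : ω = ω' := by
      have h1 : (R ∪ ω) \ R = ω := by
        rw [union_sdiff_left]
        exact sdiff_eq_self_of_disjoint (hd hx.2)
      have h2 : (R ∪ ω') \ R = ω' := by
        rw [union_sdiff_left]
        exact sdiff_eq_self_of_disjoint (hd hx'.2)
      rw [← h1, ← h2, heq]
    rw [hω]
  calc ∑ x ∈ F.sigma fun R => (W R).powerset, f (x.1 ∪ x.2)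
      = ∑ ω ∈ (F.sigma fun R => (W R).powerset).image (fun x => x.1 ∪ x.2), f ω := by
        rw [sum_image hinj]
    _ ≤ ∑ ω : Finset V, f ω := sum_le_sum_of_subset_of_nonneg (subset_univ _)
        (fun ω _ _ => hf0 ω)
    _ = 1 := htot

/-- total weight of the connected sets with at least two vertices -/
theorem perc_sum_le [Fintype V] {ρ : ℝ} (h0 : 0 ≤ ρ) (h1 : ρ ≤ 1) (E : Finset ε) (n' : ℕ)
    (hn : (univ.filter (fun v => 0 < dg s t E v)).card ≤ n')
    (F : Finset (Finset V)) (hF : ∀ R ∈ F, Conn s t E R ∧ 2 ≤ R.card) :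
    ∑ R ∈ F, cw s t ρ E R ≤ n' := by
  have h2 : ∀ R ∈ F, cw s t ρ E R ≤
      ∑ v ∈ univ.filter (fun v => 0 < dg s t E v), if v ∈ R then cw s t ρ E R else 0 := by
    intro R hR
    obtain ⟨hc, h2⟩ := hF R hR
    obtain ⟨v, hv⟩ := hc.1
    have hne : ({v} : Finset V) ≠ R := by
      intro h; rw [← h] at h2; simp at h2
    obtain ⟨e, he, h⟩ := hc.2 {v} (singleton_subset_iff.2 hv) (singleton_nonempty v) hne
    have hdv : 0 < dg s t E v := by
      unfold dg
      refine card_pos.2 ⟨e, mem_filter.2 ⟨he, ?_⟩⟩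
      rcases h with ⟨h, -⟩ | ⟨h, -⟩
      · left; exact mem_singleton.1 h
      · right; exact mem_singleton.1 h
    calc cw s t ρ E R = if v ∈ R then cw s t ρ E R else 0 := by simp [hv]
      _ ≤ _ := single_le_sum (f := fun v => if v ∈ R then cw s t ρ E R else 0)
          (fun w _ => by
            split_ifs
            · exact cw_nonneg h0 h1 E R
            · exact le_rfl) (mem_filter.2 ⟨mem_univ v, hdv⟩)
  calc ∑ R ∈ F, cw s t ρ E R ≤ ∑ R ∈ F,
        ∑ v ∈ univ.filter (fun v => 0 < dg s t E v), (if v ∈ R then cw s t ρ E R else 0) :=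
        sum_le_sum h2
    _ = ∑ v ∈ univ.filter (fun v => 0 < dg s t E v),
        ∑ R ∈ F, (if v ∈ R then cw s t ρ E R else 0) := sum_comm
    _ ≤ ∑ v ∈ univ.filter (fun v => 0 < dg s t E v), (1 : ℝ) := by
        refine sum_le_sum fun v _ => ?_
        rw [← sum_filter]
        refine perc_sum_le_one h0 h1 E v _ fun R hR => ?_
        rw [mem_filter] at hR
        exact ⟨(hF R hR.1).1, hR.2⟩
    _ ≤ n' := by
        rw [sum_const, nsmul_eq_mul, mul_one]
        exact_mod_cast hn

end Pool.Agent.helper36.MD
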