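import Pool.Agent.helper36.MD.Potential
import Pool.Agent.helper36.MD.Perc
import Pool.Agent.helper36.MD.Active

/-!
The level-one potential keeps the set of vertices with a large level-one lead sparse in every
large connected set.
-/

set_option autoImplicit false
set_option linter.unusedSectionVars false
set_option linter.unusedVariables false
open Finset

namespace Pool.Agent.helper36.MD

variable {ε : Type} [DecidableEq ε] {V : Type} [DecidableEq V] [Fintype V] (s t : ε → V)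

/-- assumptions on a sparse board -/
structure Par (p q g Δ L n : ℕ) (E : Finset ε) : Prop where
  hE : ∀ e ∈ E, s e ≠ t e
  hΔ1 : 1 ≤ Δ
  hΔ : ∀ v, dg s t E v ≤ Δ
  hg : g ≤ 2 * Δ
  hL : 2 ≤ L
  hpq : q < p
  sp : ∀ X : Finset V, (∀ R ⊆ X, Conn s t E R → R.card ≤ 2 * L) → eIn s t E X ≤ q * X.card
  hn : (univ.filter (fun v => 0 < dg s t E v)).card ≤ n
  num : ∀ r h : ℕ, L ≤ r → (p - q) * r ≤ 2 * p * h →
    (2 * n : ℝ) < (1 / (8 * (Δ : ℝ))) ^ r * Real.exp ((g : ℝ) ^ 2 * h / (16 * Δ))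

open scoped Classical in
/-- indices of the potential -/
noncomputable def idx (L : ℕ) (E : Finset ε) : Finset (Finset V × Finset V) :=
  univ.filter (fun x => Conn s t E x.1 ∧ L ≤ x.1.card ∧ x.2 ⊆ x.1)

/-- coefficients -/
noncomputable def cc (Δ : ℕ) (E : Finset ε) (x : Finset V × Finset V) : ℝ :=
  cw s t (1 / (2 * (Δ : ℝ))) E x.1 * (1 / 2) ^ x.1.card

/-- influences -/
noncomputable def aa (g Δ : ℕ) (x : Finset V × Finset V) (e : ε) : ℝ :=
  (g : ℝ) / (8 * Δ) * cnt s t x.2 e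

/-- the vertices with a large level-one lead -/
def Hset (g : ℕ) (M B : Finset ε) : Finset V :=
  univ.filter (fun v => (g : ℤ) ≤ lead s t M B v)

variable {s t} {p q g Δ L n : ℕ} {E : Finset ε}

theorem aa_bounds (hP : Par s t p q g Δ L n E) (x : Finset V × Finset V) (e : ε) :
    0 ≤ aa s t g Δ x e ∧ aa s t g Δ x e ≤ 1 / 2 := by
  have hΔ : (1 : ℝ) ≤ Δ := by exact_mod_cast hP.hΔ1
  have hg : (g : ℝ) ≤ 2 * Δ := by exact_mod_cast hP.hg
  have h0 : 0 ≤ (g : ℝ) / (8 * Δ) := by positivity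
  have h1 : (g : ℝ) / (8 * Δ) ≤ 1 / 4 := by
    rw [div_le_div_iff₀ (by linarith) (by norm_num)]
    linarith
  have h2 : (cnt s t x.2 e : ℝ) ≤ 2 := by exact_mod_cast cnt_le_two x.2 e
  have h3 : (0 : ℝ) ≤ cnt s t x.2 e := by positivity
  unfold aa
  constructor
  · positivity
  · nlinarith

theorem cc_nonneg (hP : Par s t p q g Δ L n E) (x : Finset V × Finset V) :
    0 ≤ cc s t Δ E x := by
  have hΔ : (1 : ℝ) ≤ Δ := by exact_mod_cast hP.hΔ1
  unfold cc
  refine mul_nonneg (cw_nonneg (by positivity) ?_ E _) (by positivity)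
  rw [div_le_one (by linarith)]
  linarith

theorem sum_cc_le (hP : Par s t p q g Δ L n E) :
    ∑ x ∈ idx s t L E, cc s t Δ E x ≤ n := by
  classical
  have hΔ : (1 : ℝ) ≤ Δ := by exact_mod_cast hP.hΔ1
  set F : Finset (Finset V) := univ.filter (fun R => Conn s t E R ∧ L ≤ R.card) with hF
  have h1 : idx s t L E = (F.sigma (fun R => R.powerset)).image (fun x => (x.1, x.2)) := by
    ext x
    simp only [idx, hF, mem_filter, mem_univ, true_and, mem_image, mem_sigma, mem_powerset,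
      Sigma.exists]
    constructor
    · rintro ⟨h1, h2, h3⟩
      exact ⟨x.1, x.2, ⟨⟨h1, h2⟩, h3⟩, rfl⟩
    · rintro ⟨R, S, ⟨⟨h1, h2⟩, h3⟩, rfl⟩
      exact ⟨h1, h2, h3⟩
  rw [h1, sum_image (by
    rintro ⟨R, S⟩ _ ⟨R', S'⟩ _ h
    simp only [Prod.mk.injEq] at h
    obtain ⟨rfl, rfl⟩ := h
    rfl), sum_sigma]
  have h2 : ∀ R ∈ F, ∑ S ∈ R.powerset, cc s t Δ E (R, S) =
      cw s t (1 / (2 * (Δ : ℝ))) E R := by
    intro R _
    simp only [cc, sum_const, card_powerset, nsmul_eq_mul]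
    have : ((2 ^ R.card : ℕ) : ℝ) * (1 / 2) ^ R.card = 1 := by
      push_cast
      rw [← mul_pow]
      norm_num
    calc _ = cw s t (1 / (2 * (Δ : ℝ))) E R * (((2 ^ R.card : ℕ) : ℝ) * (1 / 2) ^ R.card) := by
          ring
      _ = _ := by rw [this, mul_one]
  rw [sum_congr rfl h2]
  refine perc_sum_le (by positivity) ?_ E n hP.hn F fun R hR => ?_
  · rw [div_le_one (by linarith)]; linarith
  · rw [hF, mem_filter] at hR
    exact ⟨hR.2.1, hP.hL.trans hR.2.2⟩

theorem Par.few (hP : Par s t p q g Δ L n E) {M B : Finset ε} (hM : M ⊆ E) (hB : B ⊆ E)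
    (hMB : Disjoint M B)
    (hpot : pot (idx s t L E) (cc s t Δ E) (aa s t g Δ) M B ≤ 2 * n) (R : Finset V)
    (hR : Conn s t E R) (hLR : L ≤ R.card) :
    2 * p * (R ∩ Hset s t g M B).card < (p - q) * R.card := by
  by_contra hcon
  push Not at hcon
  have hΔ : (1 : ℝ) ≤ Δ := by exact_mod_cast hP.hΔ1
  set S := R ∩ Hset s t g M B with hS
  have hnum := hP.num R.card S.card hLR hcon
  have hidx : (R, S) ∈ idx s t L E := by
    simp only [idx, mem_filter, mem_univ, true_and]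
    exact ⟨hR, hLR, inter_subset_left⟩
  have hw := wt_le_pot (fun x _ => cc_nonneg hP x)
    (fun x _ e => ⟨(aa_bounds hP x e).1, (aa_bounds hP x e).2.trans (by norm_num)⟩) M B hidx
  have hprod := prod_ge_exp (M := M) (B := B) (aa s t g Δ (R, S))
    (fun e => (aa_bounds hP _ e).1) (fun e => (aa_bounds hP _ e).2)
  set lam : ℝ := (g : ℝ) / (8 * Δ) with hlam
  have hlam0 : 0 ≤ lam := by positivity
  have hsum : ∀ X : Finset ε, X ⊆ E → ∑ e ∈ X, aa s t g Δ (R, S) e =
      lam * ∑ v ∈ S, (dg s t X v : ℝ) := by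
    intro X hX
    have h1 := sum_cnt (s := s) (t := t) (X := X) (fun e he => hP.hE e (hX he)) S
    have h2 : (∑ e ∈ X, (cnt s t S e : ℝ)) = ∑ v ∈ S, (dg s t X v : ℝ) := by
      exact_mod_cast h1
    rw [← h2, mul_sum]
    rfl
  have hsum2 : ∀ X : Finset ε, X ⊆ E → ∑ e ∈ X, aa s t g Δ (R, S) e ^ 2 ≤
      2 * lam ^ 2 * ∑ v ∈ S, (dg s t X v : ℝ) := by
    intro X hX
    have h1 := sum_cnt (s := s) (t := t) (X := X) (fun e he => hP.hE e (hX he)) S
    have h2 : (∑ e ∈ X, (cnt s t S e : ℝ)) = ∑ v ∈ S, (dg s t X v : ℝ) := by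
      exact_mod_cast h1
    rw [← h2, mul_sum]
    refine sum_le_sum fun e _ => ?_
    have h3 : (cnt s t S e : ℝ) ≤ 2 := by exact_mod_cast cnt_le_two S e
    have h4 : (0 : ℝ) ≤ cnt s t S e := by positivity
    unfold aa
    simp only
    rw [mul_pow, ← hlam]
    nlinarith [mul_nonneg (sq_nonneg lam) (mul_nonneg h4 (sub_nonneg.2 h3))]
  rw [hsum B hB, hsum M hM] at hprod
  have hb2 := hsum2 B hB
  have hm2 := hsum2 M hM
  -- the two facts about the degrees
  have hd1 : ∑ v ∈ S, (dg s t M v : ℝ) + ∑ v ∈ S, (dg s t B v : ℝ) ≤ Δ * S.card := by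
    rw [← sum_add_distrib]
    calc ∑ v ∈ S, ((dg s t M v : ℝ) + dg s t B v) ≤ ∑ v ∈ S, (Δ : ℝ) := by
          refine sum_le_sum fun v _ => ?_
          have h1 := dg_union (s := s) (t := t) hMB v
          have h2 := dg_mono (s := s) (t := t) (union_subset hM hB) v
          have h3 := hP.hΔ v
          have : dg s t M v + dg s t B v ≤ Δ := by omega
          exact_mod_cast this
      _ = Δ * S.card := by rw [sum_const, nsmul_eq_mul]; ring
  have hd2 : (g : ℝ) * S.card ≤ ∑ v ∈ S, (dg s t B v : ℝ) - ∑ v ∈ S, (dg s t M v : ℝ) := by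
    rw [← sum_sub_distrib]
    calc (g : ℝ) * S.card = ∑ v ∈ S, (g : ℝ) := by rw [sum_const, nsmul_eq_mul]; ring
      _ ≤ _ := by
        refine sum_le_sum fun v hv => ?_
        have h1 : v ∈ Hset s t g M B := (mem_inter.1 hv).2
        unfold Hset at h1
        rw [mem_filter] at h1
        have h2 := h1.2
        unfold lead at h2
        have : (g : ℤ) ≤ (dg s t B v : ℤ) - dg s t M v := h2
        exact_mod_cast this
  have hexp : (g : ℝ) ^ 2 * S.card / (16 * Δ) ≤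
      lam * ∑ v ∈ S, (dg s t B v : ℝ) - lam * ∑ v ∈ S, (dg s t M v : ℝ) -
      2 * ((∑ e ∈ B, aa s t g Δ (R, S) e ^ 2) + ∑ e ∈ M, aa s t g Δ (R, S) e ^ 2) := by
    have h1 : lam * ((g : ℝ) * S.card) ≤
        lam * (∑ v ∈ S, (dg s t B v : ℝ) - ∑ v ∈ S, (dg s t M v : ℝ)) :=
      mul_le_mul_of_nonneg_left hd2 hlam0
    have h2 : 4 * lam ^ 2 * (∑ v ∈ S, (dg s t M v : ℝ) + ∑ v ∈ S, (dg s t B v : ℝ)) ≤
        4 * lam ^ 2 * (Δ * S.card) := mul_le_mul_of_nonneg_left hd1 (by positivity)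
    have h3 : lam * ((g : ℝ) * S.card) - 4 * lam ^ 2 * (Δ * S.card) =
        (g : ℝ) ^ 2 * S.card / (16 * Δ) := by
      rw [hlam]
      have : (Δ : ℝ) ≠ 0 := by linarith
      field_simp
      ring
    nlinarith [h1, h2, h3, hb2, hm2]
  have hc : (1 / (8 * (Δ : ℝ))) ^ R.card ≤ cc s t Δ E (R, S) := by
    unfold cc
    have h1 := cw_lower hP.hE hP.hΔ1 hP.hΔ R
    calc (1 / (8 * (Δ : ℝ))) ^ R.card =
          (1 / (4 * (Δ : ℝ))) ^ R.card * (1 / 2) ^ R.card := by
          rw [← mul_pow]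
          congr 1
          field_simp
          norm_num
      _ ≤ _ := mul_le_mul_of_nonneg_right h1 (by positivity)
  have hfinal : (1 / (8 * (Δ : ℝ))) ^ R.card * Real.exp ((g : ℝ) ^ 2 * S.card / (16 * Δ)) ≤
      wt (cc s t Δ E) (aa s t g Δ) M B (R, S) := by
    unfold wt
    exact mul_le_mul hc ((Real.exp_le_exp.2 hexp).trans hprod) (Real.exp_pos _).le
      (cc_nonneg hP _)
  linarith

theorem Par.good (hP : Par s t p q g Δ L n E) {M B : Finset ε} (hM : M ⊆ E) (hB : B ⊆ E)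
    (hMB : Disjoint M B)
    (hpot : pot (idx s t L E) (cc s t Δ E) (aa s t g Δ) M B ≤ 2 * n) :
    Good s t p q L E (Hset s t g M B) :=
  ⟨hP.hE, by have := hP.hL; omega, hP.hpq, hP.sp, hP.few hM hB hMB hpot⟩

end Pool.Agent.helper36.MD
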