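import Pool.Agent.helper36.MD.Strat
import Pool.Agent.helper36.MD.Level
import Pool.Agent.helper36.MD.Debt

/-!
Maker's strategy on boards in which all small sets are sparse.
-/

set_option autoImplicit false
set_option linter.unusedSectionVars false
set_option linter.unusedVariables false
open Finset

namespace Pool.Agent.helper36.MD

variable {ε : Type} [DecidableEq ε] {V : Type} [DecidableEq V] [Fintype V] {s t : ε → V}

/-- `v` has a free edge -/
def HasFree (s t : ε → V) (E M B : Finset ε) (v : V) : Prop :=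
  ∃ e ∈ E, e ∉ M ∧ e ∉ B ∧ (s e = v ∨ t e = v)

/-- the vertex sets controlled by the debt function -/
def Ctrl (s t : ε → V) (L : ℕ) (E M B : Finset ε) (R : Finset V) : Prop :=
  (∀ v ∈ R, HasFree s t E M B v) ∧ ∀ R' ⊆ R, Conn s t E R' → R'.card < L

/-- the active set of a position -/
noncomputable def actp (s t : ε → V) (p g L : ℕ) (E M₁ B₁ : Finset ε) : Finset V :=
  act s t p L E (Hset s t g M₁ B₁)

/-- the invariant -/
structure Inv (s t : ε → V) (p g Δ L n : ℕ) (E M B M₁ B₁ : Finset ε) : Prop where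
  hM : M ⊆ E
  hB : B ⊆ E
  hMB : Disjoint M B
  hM₁ : M₁ ⊆ M
  hB₁ : B₁ ⊆ B
  pot1 : pot (idx s t L E) (cc s t Δ E) (aa s t g Δ) M₁ B₁ ≤ 2 * n
  pot2 : ∀ f ∈ E, f ∉ M → f ∉ B → s f ∉ actp s t p g L E M₁ B₁ →
    t f ∉ actp s t p g L E M₁ B₁ →
    pot (idx s t L E) (cc s t Δ E) (aa s t g Δ) M₁ B₁ +
      val (idx s t L E) (cc s t Δ E) (aa s t g Δ) M₁ B₁ f ≤ 2 * n
  i2 : ∀ e ∈ B, e ∉ B₁ → s e ∈ actp s t p g L E M₁ B₁ ∨ t e ∈ actp s t p g L E M₁ B₁
  debt : ∀ R, Ctrl s t L E M B R → 0 ≤ ff s t (p + g) E M B R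
  exh : ∀ v, ¬ HasFree s t E M B v → lead s t M B v ≤ p + g + 1

variable {p q g Δ L n : ℕ} {E M B M₁ B₁ : Finset ε}

theorem HasFree.of_insert_M {e : ε} {v : V} (h : HasFree s t E (insert e M) B v) :
    HasFree s t E M B v := by
  obtain ⟨x, h1, h2, h3, h4⟩ := h
  exact ⟨x, h1, fun h => h2 (mem_insert_of_mem h), h3, h4⟩

theorem HasFree.of_insert_B {e : ε} {v : V} (h : HasFree s t E M (insert e B) v) :
    HasFree s t E M B v := by
  obtain ⟨x, h1, h2, h3, h4⟩ := h
  exact ⟨x, h1, h2, fun h => h3 (mem_insert_of_mem h), h4⟩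

theorem Ctrl.of_insert_M {e : ε} {R : Finset V} (h : Ctrl s t L E (insert e M) B R) :
    Ctrl s t L E M B R := ⟨fun v hv => (h.1 v hv).of_insert_M, h.2⟩

theorem Ctrl.of_insert_B {e : ε} {R : Finset V} (h : Ctrl s t L E M (insert e B) R) :
    Ctrl s t L E M B R := ⟨fun v hv => (h.1 v hv).of_insert_B, h.2⟩

theorem Ctrl.subset {R R' : Finset V} (h : Ctrl s t L E M B R) (hs : R' ⊆ R) :
    Ctrl s t L E M B R' := ⟨fun v hv => h.1 v (hs hv), fun R'' h' => h.2 R'' (h'.trans hs)⟩

theorem Ctrl.singleton {v : V} (hL : 2 ≤ L) (h : HasFree s t E M B v) :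
    Ctrl s t L E M B {v} := by
  refine ⟨fun w hw => by rw [mem_singleton.1 hw]; exact h, fun R' hR' _ => ?_⟩
  have := card_le_card hR'
  rw [card_singleton] at this
  omega

/-- a vertex with a free edge has lead at most `p + g` -/
theorem lead_le_of_debt (hL : 2 ≤ L) (hloop : ∀ e ∈ E, s e ≠ t e)
    (hd : ∀ R, Ctrl s t L E M B R → 0 ≤ ff s t (p + g) E M B R) {v : V}
    (h : HasFree s t E M B v) : lead s t M B v ≤ p + g := by
  have h1 := hd {v} (Ctrl.singleton hL h)
  unfold ff at h1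
  rw [sum_singleton] at h1
  have h2 : (0 : ℤ) ≤ eIn s t (E \ (M ∪ B)) {v} := by positivity
  push_cast at h1
  linarith

/-- Maker's move keeps the debts nonnegative -/
theorem debt_insert_M (hE : ∀ e ∈ E, s e ≠ t e)
    (hd : ∀ R, Ctrl s t L E M B R → 0 ≤ ff s t (p + g) E M B R) {e : ε} (he : e ∈ E)
    (heM : e ∉ M) (heB : e ∉ B) :
    ∀ R, Ctrl s t L E (insert e M) B R → 0 ≤ ff s t (p + g) E (insert e M) B R := by
  intro R hR
  have h1 := hd R hR.of_insert_M
  rw [ff_insert_M (hE e he) he heM heB]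
  split_ifs <;> linarith

/-- exhausted vertices after a move of Maker -/
theorem exh_insert_M (hL : 2 ≤ L) (hE : ∀ e ∈ E, s e ≠ t e)
    (hd : ∀ R, Ctrl s t L E M B R → 0 ≤ ff s t (p + g) E M B R)
    (hx : ∀ v, ¬ HasFree s t E M B v → lead s t M B v ≤ p + g + 1) {e : ε}
    (heM : e ∉ M) :
    ∀ v, ¬ HasFree s t E (insert e M) B v → lead s t (insert e M) B v ≤ p + g + 1 := by
  intro v _
  have h1 : lead s t M B v ≤ p + g + 1 := by
    by_cases h : HasFree s t E M B v
    · have := lead_le_of_debt hL hE hd h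
      linarith
    · exact hx v h
  rw [lead_insert_M heM]
  split_ifs <;> linarith

/-- exhausted vertices after a move of Breaker -/
theorem exh_insert_B (hL : 2 ≤ L) (hE : ∀ e ∈ E, s e ≠ t e)
    (hd : ∀ R, Ctrl s t L E M B R → 0 ≤ ff s t (p + g) E M B R)
    (hx : ∀ v, ¬ HasFree s t E M B v → lead s t M B v ≤ p + g + 1) {f : ε}
    (hf : f ∈ E) (hfM : f ∉ M) (hfB : f ∉ B) :
    ∀ v, ¬ HasFree s t E M (insert f B) v → lead s t M (insert f B) v ≤ p + g + 1 := by
  intro v _
  rw [lead_insert_B hfB]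
  by_cases h : HasFree s t E M B v
  · have := lead_le_of_debt hL hE hd h
    split_ifs <;> linarith
  · have h1 := hx v h
    have h2 : ¬ (s f = v ∨ t f = v) := fun h' => h ⟨f, hf, hfM, hfB, h'⟩
    rw [if_neg h2]
    linarith

variable (hP : Par s t p q g Δ L n E)

include hP

theorem Inv.good (h : Inv s t p g Δ L n E M B M₁ B₁) :
    Good s t p q L E (Hset s t g M₁ B₁) :=
  hP.good (h.hM₁.trans h.hM) (h.hB₁.trans h.hB)
    (disjoint_of_subset_left h.hM₁ (disjoint_of_subset_right h.hB₁ h.hMB)) h.pot1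

/-- tight sets are inside the active set -/
theorem Inv.tight (h : Inv s t p g Δ L n E M B M₁ B₁) {R : Finset V}
    (hR : Ctrl s t L E M B R) (h0 : ff s t (p + g) E M B R ≤ 0) :
    R ⊆ actp s t p g L E M₁ B₁ := by
  have hG := h.good hP
  have h1 := ff_ge_active (s := s) (t := t) (k := p + g) (p := p) (g := g) rfl hP.hE h.hM₁ h.hB₁
    h.hB (H_subset_act hP.hE hG.hL : Hset s t g M₁ B₁ ⊆ act s t p L E (Hset s t g M₁ B₁))
    (fun v hv => by
      unfold Hset at hv
      rw [mem_filter] at hv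
      push Not at hv
      have := hv (mem_univ v)
      linarith) h.i2 R
  have h2 := hG.phi_union_ge (N := R \ act s t p L E (Hset s t g M₁ B₁)) sdiff_disjoint
    (fun R' hR' hc => hR.2 R' (hR'.trans sdiff_subset) hc)
  have h3 := h.debt _ (hR.subset (inter_subset_left :
    R ∩ act s t p L E (Hset s t g M₁ B₁) ⊆ R))
  have h4 : (R \ act s t p L E (Hset s t g M₁ B₁)).card = 0 := by
    have : ((R \ act s t p L E (Hset s t g M₁ B₁)).card : ℤ) ≤ 0 := by linarith
    omega
  unfold actp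
  exact sdiff_eq_empty_iff_subset.1 (card_eq_zero.1 h4)

/-- two sets inside the active set: their union is controlled -/
theorem Inv.ctrl_union (h : Inv s t p g Δ L n E M B M₁ B₁) {R R' : Finset V}
    (hR : Ctrl s t L E M B R) (hR' : Ctrl s t L E M B R')
    (h1 : R ⊆ actp s t p g L E M₁ B₁) (h2 : R' ⊆ actp s t p g L E M₁ B₁) :
    Ctrl s t L E M B (R ∪ R') := by
  have hG := h.good hP
  refine ⟨fun v hv => ?_, fun S hS hc => hG.conn_card_lt hc (hS.trans (union_subset h1 h2))⟩
  rcases mem_union.1 hv with hv | hv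
  · exact hR.1 v hv
  · exact hR'.1 v hv

/-- extra moves of Maker -/
theorem Inv.extra (h : Inv s t p g Δ L n E M B M₁ B₁) {e : ε} (he : e ∈ E) (heM : e ∉ M)
    (heB : e ∉ B) : Inv s t p g Δ L n E (insert e M) B M₁ B₁ where
  hM := insert_subset he h.hM
  hB := h.hB
  hMB := disjoint_insert_left.2 ⟨heB, h.hMB⟩
  hM₁ := h.hM₁.trans (subset_insert _ _)
  hB₁ := h.hB₁
  pot1 := h.pot1
  pot2 := fun f hf hfM hfB => h.pot2 f hf (fun h' => hfM (mem_insert_of_mem h')) hfB
  i2 := h.i2
  debt := debt_insert_M hP.hE h.debt he heM heB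
  exh := exh_insert_M hP.hL hP.hE h.debt h.exh heM

/-- Breaker's move outside the active set -/
theorem Inv.reply_one (h : Inv s t p g Δ L n E M B M₁ B₁) {f : ε} (hf : f ∈ E) (hfM : f ∉ M)
    (hfB : f ∉ B) (h1 : s f ∉ actp s t p g L E M₁ B₁) (h2 : t f ∉ actp s t p g L E M₁ B₁) :
    (∃ e ∈ E, e ∉ M ∧ e ∉ insert f B ∧ ∃ M₁' B₁',
      Inv s t p g Δ L n E (insert e M) (insert f B) M₁' B₁') ∨
    (E ⊆ M ∪ insert f B ∧ ∃ M₁' B₁', Inv s t p g Δ L n E M (insert f B) M₁' B₁') := by
  have hc0 : ∀ x ∈ idx s t L E, 0 ≤ cc s t Δ E x := fun x _ => cc_nonneg hP x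
  have ha0 : ∀ x ∈ idx s t L E, ∀ e, 0 ≤ aa s t g Δ x e ∧ aa s t g Δ x e ≤ 1 :=
    fun x _ e => ⟨(aa_bounds hP x e).1, (aa_bounds hP x e).2.trans (by norm_num)⟩
  have hfB₁ : f ∉ B₁ := fun h' => hfB (h.hB₁ h')
  have hfM₁ : f ∉ M₁ := fun h' => hfM (h.hM₁ h')
  have hpot1 : pot (idx s t L E) (cc s t Δ E) (aa s t g Δ) M₁ (insert f B₁) ≤ 2 * n := by
    rw [pot_insert_B hfB₁]
    exact h.pot2 f hf hfM hfB h1 h2
  have hHmono : Hset s t g M₁ B₁ ⊆ Hset s t g M₁ (insert f B₁) := by
    intro v hv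
    unfold Hset at hv ⊢
    rw [mem_filter] at hv ⊢
    refine ⟨mem_univ v, ?_⟩
    rw [lead_insert_B hfB₁]
    have := hv.2
    split_ifs <;> linarith
  have hAmono : actp s t p g L E M₁ B₁ ⊆ actp s t p g L E M₁ (insert f B₁) := act_mono hHmono
  -- the debts after the move
  have hdebt : ∀ R, Ctrl s t L E M (insert f B) R → 0 ≤ ff s t (p + g) E M (insert f B) R := by
    intro R hR
    rw [ff_insert_B (hP.hE f hf) hf hfM hfB]
    by_cases hfR : s f ∈ R ∨ t f ∈ R
    · rw [if_pos hfR]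
      by_contra hneg
      push Not at hneg
      have h3 := h.tight hP hR.of_insert_B (by linarith)
      rcases hfR with h4 | h4
      · exact h1 (h3 h4)
      · exact h2 (h3 h4)
    · rw [if_neg hfR]
      have := h.debt R hR.of_insert_B
      linarith
  have hexh := exh_insert_B hP.hL hP.hE h.debt h.exh hf hfM hfB
  have hMf : Disjoint M (insert f B) := disjoint_insert_right.2 ⟨hfM, h.hMB⟩
  have hi2 : ∀ e ∈ insert f B, e ∉ insert f B₁ →
      s e ∈ actp s t p g L E M₁ (insert f B₁) ∨ t e ∈ actp s t p g L E M₁ (insert f B₁) := by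
    intro e he he'
    rw [mem_insert, not_or] at he'
    rcases mem_insert.1 he with h3 | h3
    · exact absurd h3 he'.1
    · rcases h.i2 e h3 he'.2 with h4 | h4
      · exact Or.inl (hAmono h4)
      · exact Or.inr (hAmono h4)
  by_cases hav : ∃ e ∈ E, e ∉ M ∧ e ∉ insert f B ∧
      s e ∉ actp s t p g L E M₁ (insert f B₁) ∧ t e ∉ actp s t p g L E M₁ (insert f B₁)
  · -- reply with the best available edge
    left
    classical
    set U : Finset ε := (E \ (M ∪ insert f B)).filter (fun e =>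
      s e ∉ actp s t p g L E M₁ (insert f B₁) ∧ t e ∉ actp s t p g L E M₁ (insert f B₁)) with hU
    have hUne : U.Nonempty := by
      obtain ⟨e, he, heM, heB, hs, ht⟩ := hav
      exact ⟨e, mem_filter.2 ⟨mem_free.2 ⟨he, heM, heB⟩, hs, ht⟩⟩
    obtain ⟨e, heU, hmax⟩ := exists_max_image U
      (fun e => val (idx s t L E) (cc s t Δ E) (aa s t g Δ) M₁ (insert f B₁) e) hUne
    have heU' := heU
    rw [hU, mem_filter, mem_free] at heU'
    obtain ⟨⟨he, heM, heB⟩, hse, hte⟩ := heU'
    have heM₁ : e ∉ M₁ := fun h' => heM (h.hM₁ h')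
    have hHset : Hset s t g (insert e M₁) (insert f B₁) = Hset s t g M₁ (insert f B₁) := by
      have hHA : Hset s t g M₁ (insert f B₁) ⊆ actp s t p g L E M₁ (insert f B₁) :=
        H_subset_act hP.hE (by have := hP.hL; omega)
      ext v
      unfold Hset
      simp only [mem_filter, mem_univ, true_and]
      rw [lead_insert_M heM₁]
      by_cases hv : s e = v ∨ t e = v
      · rw [if_pos hv]
        have hvA : v ∉ actp s t p g L E M₁ (insert f B₁) := by
          rcases hv with hv | hv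
          · rw [← hv]; exact hse
          · rw [← hv]; exact hte
        have hvH : v ∉ Hset s t g M₁ (insert f B₁) := fun h' => hvA (hHA h')
        unfold Hset at hvH
        simp only [mem_filter, mem_univ, true_and] at hvH
        constructor
        · intro h3; linarith
        · intro h3; exact absurd h3 hvH
      · rw [if_neg hv, sub_zero]
    have hact : actp s t p g L E (insert e M₁) (insert f B₁) =
        actp s t p g L E M₁ (insert f B₁) := by
      unfold actp
      rw [hHset]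
    refine ⟨e, he, heM, heB, insert e M₁, insert f B₁, ?_⟩
    refine ⟨insert_subset he h.hM, insert_subset hf h.hB,
      disjoint_insert_left.2 ⟨heB, hMf⟩, insert_subset_insert _ h.hM₁,
      insert_subset_insert _ h.hB₁, ?_, ?_, ?_, ?_, ?_⟩
    · rw [pot_insert_M heM₁]
      linarith [val_nonneg hc0 ha0 M₁ (insert f B₁) e]
    · intro f' hf' hf'M hf'B hs' ht'
      rw [hact] at hs' ht'
      rw [pot_insert_M heM₁]
      have h3 : f' ∈ U := by
        rw [hU, mem_filter, mem_free]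
        exact ⟨⟨hf', fun h' => hf'M (mem_insert_of_mem h'), hf'B⟩, hs', ht'⟩
      have h4 := hmax f' h3
      have h5 := val_insert_M_le hc0 ha0 (B := insert f B₁) heM₁ f'
      linarith
    · rw [hact]; exact hi2
    · exact debt_insert_M hP.hE hdebt he heM heB
    · exact exh_insert_M hP.hL hP.hE hdebt hexh heM
  · -- nothing is available
    push Not at hav
    have hI : Inv s t p g Δ L n E M (insert f B) M₁ (insert f B₁) := by
      refine ⟨h.hM, insert_subset hf h.hB, hMf, h.hM₁, insert_subset_insert _ h.hB₁, hpot1, ?_,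
        hi2, hdebt, hexh⟩
      intro f' hf' hf'M hf'B hs' ht'
      exact absurd ht' (by
        have := hav f' hf' hf'M hf'B hs'
        simpa using this)
    by_cases hfree : ∃ e ∈ E, e ∉ M ∧ e ∉ insert f B
    · left
      obtain ⟨e, he, heM, heB⟩ := hfree
      exact ⟨e, he, heM, heB, M₁, insert f B₁, hI.extra hP he heM heB⟩
    · right
      push Not at hfree
      refine ⟨fun e he => ?_, M₁, insert f B₁, hI⟩
      by_cases heM : e ∈ M
      · exact mem_union_left _ heM
      · exact mem_union_right _ (hfree e he heM)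

/-- Breaker's move touching the active set -/
theorem Inv.reply_two (h : Inv s t p g Δ L n E M B M₁ B₁) {f : ε} (hf : f ∈ E) (hfM : f ∉ M)
    (hfB : f ∉ B) (h1 : s f ∈ actp s t p g L E M₁ B₁ ∨ t f ∈ actp s t p g L E M₁ B₁) :
    (∃ e ∈ E, e ∉ M ∧ e ∉ insert f B ∧ ∃ M₁' B₁',
      Inv s t p g Δ L n E (insert e M) (insert f B) M₁' B₁') ∨
    (E ⊆ M ∪ insert f B ∧ ∃ M₁' B₁', Inv s t p g Δ L n E M (insert f B) M₁' B₁') := by
  have hMf : Disjoint M (insert f B) := disjoint_insert_right.2 ⟨hfM, h.hMB⟩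
  have hexh := exh_insert_B hP.hL hP.hE h.debt h.exh hf hfM hfB
  have hi2 : ∀ e ∈ insert f B, e ∉ B₁ →
      s e ∈ actp s t p g L E M₁ B₁ ∨ t e ∈ actp s t p g L E M₁ B₁ := by
    intro e he he'
    rcases mem_insert.1 he with h3 | h3
    · rw [h3]; exact h1
    · exact h.i2 e h3 he'
  have hpot2 : ∀ f' ∈ E, f' ∉ M → f' ∉ insert f B → s f' ∉ actp s t p g L E M₁ B₁ →
      t f' ∉ actp s t p g L E M₁ B₁ →
      pot (idx s t L E) (cc s t Δ E) (aa s t g Δ) M₁ B₁ +
        val (idx s t L E) (cc s t Δ E) (aa s t g Δ) M₁ B₁ f' ≤ 2 * n :=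
    fun f' hf' hf'M hf'B => h.pot2 f' hf' hf'M (fun h' => hf'B (mem_insert_of_mem h'))
  -- violated sets
  have hviol : ∀ R, Ctrl s t L E M (insert f B) R → ff s t (p + g) E M (insert f B) R < 0 →
      (s f ∈ R ∨ t f ∈ R) ∧ ff s t (p + g) E M B R = 0 ∧ R ⊆ actp s t p g L E M₁ B₁ ∧
      ff s t (p + g) E M (insert f B) R = -1 := by
    intro R hR hneg
    have h2 := h.debt R hR.of_insert_B
    rw [ff_insert_B (hP.hE f hf) hf hfM hfB] at hneg ⊢
    by_cases hfR : s f ∈ R ∨ t f ∈ R
    · rw [if_pos hfR] at hneg ⊢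
      have h3 : ff s t (p + g) E M B R = 0 := by linarith
      exact ⟨hfR, h3, h.tight hP hR.of_insert_B h3.le, by linarith⟩
    · rw [if_neg hfR] at hneg
      linarith
  by_cases hok : ∀ R, Ctrl s t L E M (insert f B) R → 0 ≤ ff s t (p + g) E M (insert f B) R
  · -- no violated set
    have hI : Inv s t p g Δ L n E M (insert f B) M₁ B₁ :=
      ⟨h.hM, insert_subset hf h.hB, hMf, h.hM₁, h.hB₁.trans (subset_insert _ _), h.pot1, hpot2,
        hi2, hok, hexh⟩
    by_cases hfree : ∃ e ∈ E, e ∉ M ∧ e ∉ insert f B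
    · left
      obtain ⟨e, he, heM, heB⟩ := hfree
      exact ⟨e, he, heM, heB, M₁, B₁, hI.extra hP he heM heB⟩
    · right
      push Not at hfree
      refine ⟨fun e he => ?_, M₁, B₁, hI⟩
      by_cases heM : e ∈ M
      · exact mem_union_left _ heM
      · exact mem_union_right _ (hfree e he heM)
  · -- there is a violated set; all of them contain a common end of `f`
    push Not at hok
    obtain ⟨R₀, hR₀, hneg₀⟩ := hok
    have hcommon : ∃ x, (∀ R, Ctrl s t L E M (insert f B) R →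
        ff s t (p + g) E M (insert f B) R < 0 → x ∈ R) := by
      by_contra hno
      push Not at hno
      obtain ⟨R₁, hR₁, hn₁, hx₁⟩ := hno (s f)
      obtain ⟨R₂, hR₂, hn₂, hx₂⟩ := hno (t f)
      obtain ⟨a1, a2, a3, -⟩ := hviol R₁ hR₁ hn₁
      obtain ⟨b1, b2, b3, -⟩ := hviol R₂ hR₂ hn₂
      have a1' : t f ∈ R₁ := by tauto
      have b1' : s f ∈ R₂ := by tauto
      have hu := h.debt _ (h.ctrl_union hP hR₁.of_insert_B hR₂.of_insert_B a3 b3)
      have hi := h.debt _ (hR₁.of_insert_B.subset (inter_subset_left : R₁ ∩ R₂ ⊆ R₁))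
      have h3 := ff_union_inter (s := s) (t := t) (k := p + g) (E := E) (M := M) (B := B) R₁ R₂
      have h4 : 1 ≤ cross s t (E \ (M ∪ B)) (R₁ \ R₂) (R₂ \ R₁) :=
        cross_pos (mem_free.2 ⟨hf, hfM, hfB⟩)
          (Or.inr ⟨mem_sdiff.2 ⟨b1', hx₁⟩, mem_sdiff.2 ⟨a1', hx₂⟩⟩)
      have h4' : (1 : ℤ) ≤ cross s t (E \ (M ∪ B)) (R₁ \ R₂) (R₂ \ R₁) := by exact_mod_cast h4
      linarith
    obtain ⟨x, hx⟩ := hcommon
    obtain ⟨e, he, heM, heB, hex⟩ := hR₀.1 x (hx R₀ hR₀ hneg₀)
    left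
    refine ⟨e, he, heM, heB, M₁, B₁, ?_⟩
    refine ⟨insert_subset he h.hM, insert_subset hf h.hB, disjoint_insert_left.2 ⟨heB, hMf⟩,
      h.hM₁.trans (subset_insert _ _), h.hB₁.trans (subset_insert _ _), h.pot1,
      fun f' hf' hf'M hf'B => hpot2 f' hf' (fun h' => hf'M (mem_insert_of_mem h')) hf'B,
      hi2, ?_, ?_⟩
    · intro R hR
      have hR' := hR.of_insert_M
      rw [ff_insert_M (hP.hE e he) he heM heB]
      by_cases hneg : ff s t (p + g) E M (insert f B) R < 0
      · have h3 := (hviol R hR' hneg).2.2.2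
        have h4 := hx R hR' hneg
        rcases hex with h5 | h5
        · have h6 : s e ∈ R := h5 ▸ h4
          rw [if_pos h6, h3]
          split_ifs <;> norm_num
        · have h6 : t e ∈ R := h5 ▸ h4
          rw [if_pos h6, h3]
          split_ifs <;> norm_num
      · push Not at hneg
        split_ifs <;> linarith
    · -- exhausted vertices
      intro v hv
      rw [lead_insert_M heM]
      by_cases hvf : HasFree s t E M (insert f B) v
      · -- `e` was its last free edge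
        have hev : s e = v ∨ t e = v := by
          by_contra hne
          obtain ⟨e', h3, h4, h5, h6⟩ := hvf
          refine hv ⟨e', h3, ?_, h5, h6⟩
          intro h7
          rcases mem_insert.1 h7 with h8 | h8
          · rw [h8] at h6; exact hne h6
          · exact h4 h8
        rw [if_pos hev]
        have h7 := lead_le_of_debt hP.hL hP.hE h.debt hvf.of_insert_B
        rw [lead_insert_B hfB]
        split_ifs <;> linarith
      · have h7 := hexh v hvf
        split_ifs <;> linarith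

theorem strat_T2 : Strat E (fun M B => ∀ v, lead s t M B v ≤ p + g + 1) := by
  have hc0 : ∀ x ∈ idx s t L E, 0 ≤ cc s t Δ E x := fun x _ => cc_nonneg hP x
  have ha0 : ∀ x ∈ idx s t L E, ∀ e, 0 ≤ aa s t g Δ x e ∧ aa s t g Δ x e ≤ 1 :=
    fun x _ e => ⟨(aa_bounds hP x e).1, (aa_bounds hP x e).2.trans (by norm_num)⟩
  refine ⟨fun M B => ∃ M₁ B₁, Inv s t p g Δ L n E M B M₁ B₁, ?_, ?_, ?_, ?_, ?_⟩
  · have hinit := PotInv.init hc0 ha0 (Φ := 2 * n) E (by linarith [sum_cc_le hP])
    refine ⟨∅, ∅, empty_subset _, empty_subset _, disjoint_empty_left _, Subset.refl _,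
      Subset.refl _, hinit.1, fun f hf _ _ _ _ => hinit.2 f hf, fun e he => absurd he (by simp),
      ?_, ?_⟩
    · intro R hR
      have h1 := hP.sp R fun R' hR' hc => by
        have := hR.2 R' hR' hc
        omega
      have h2 : ∑ v ∈ R, (((p + g : ℕ) : ℤ) - lead s t (∅ : Finset ε) ∅ v) =
          ((p : ℤ) + g) * R.card := by
        have : ∀ v ∈ R, (((p + g : ℕ) : ℤ) - lead s t (∅ : Finset ε) ∅ v) = (p : ℤ) + g := by
          intro v _
          simp [lead, dg_empty]
        rw [sum_congr rfl this, sum_const, nsmul_eq_mul]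
        ring
      unfold ff
      rw [h2]
      have h3 : E \ (∅ ∪ ∅) = E := by simp
      rw [h3]
      have h4 : (eIn s t E R : ℤ) ≤ q * R.card := by exact_mod_cast h1
      have h5 : (q : ℤ) ≤ p := by exact_mod_cast hP.hpq.le
      have h6 : (0 : ℤ) ≤ R.card := by positivity
      have h7 : (0 : ℤ) ≤ g := by positivity
      nlinarith
    · intro v _
      simp only [lead, dg_empty]
      push_cast
      positivity
  · rintro M B ⟨M₁, B₁, h⟩
    exact ⟨h.hM, h.hB, h.hMB⟩
  · rintro M B ⟨M₁, B₁, h⟩ e he heM heB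
    exact ⟨M₁, B₁, h.extra hP he heM heB⟩
  · rintro M B ⟨M₁, B₁, h⟩ f hf hfM hfB
    by_cases hact : s f ∈ actp s t p g L E M₁ B₁ ∨ t f ∈ actp s t p g L E M₁ B₁
    · exact h.reply_two hP hf hfM hfB hact
    · push Not at hact
      exact h.reply_one hP hf hfM hfB hact.1 hact.2
  · rintro M B ⟨M₁, B₁, h⟩ hE v
    refine h.exh v ?_
    rintro ⟨e, he, heM, heB, -⟩
    rcases mem_union.1 (hE he) with h' | h'
    · exact heM h'
    · exact heB h'

end Pool.Agent.helper36.MD
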