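import Pool.Agent.helper36.MD.T1
import Pool.Agent.helper36.MD.T2

/-!
Carving out dense small sets, splitting vertices of large degree: the induction step.
-/

set_option autoImplicit false
set_option linter.unusedSectionVars false
set_option linter.unusedVariables false
open Finset

namespace Pool.Agent.helper36.MD

/-- On every board with at most `N` non-isolated vertices and all degrees zero or at least `d`
(and at most `N`) Maker keeps every lead at most `η` times the degree. -/
def PP (N d : ℕ) (η : ℝ) : Prop :=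
  ∀ (ε V : Type) [DecidableEq ε] [DecidableEq V] [Fintype V] (s t : ε → V) (E : Finset ε),
    (∀ e ∈ E, s e ≠ t e) → (univ.filter (fun v => 0 < dg s t E v)).card ≤ N →
    (∀ v, dg s t E v = 0 ∨ d ≤ dg s t E v) → (∀ v, dg s t E v ≤ N) →
    Strat E (fun M B => ∀ v, (lead s t M B v : ℝ) ≤ η * dg s t E v)

theorem PP_base {N d : ℕ} {η : ℝ} (h0 : 0 < η) (h1 : η ≤ 1)
    (h : 8 * Real.log (2 * N) ≤ η ^ 2 * d) : PP N d η := by
  intro ε V _ _ _ s t E hE hN hd hdN
  exact strat_T1 N hN η h0 h1 d hd h

section

variable {ε : Type} [DecidableEq ε] {V : Type} [DecidableEq V] {s t : ε → V}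

theorem lead_union {M B E₁ E₂ : Finset ε} (hd : Disjoint E₁ E₂) (hM : M ⊆ E₁ ∪ E₂)
    (hB : B ⊆ E₁ ∪ E₂) (v : V) :
    lead s t M B v = lead s t (M ∩ E₁) (B ∩ E₁) v + lead s t (M ∩ E₂) (B ∩ E₂) v := by
  have key : ∀ X : Finset ε, X ⊆ E₁ ∪ E₂ → dg s t X v = dg s t (X ∩ E₁) v + dg s t (X ∩ E₂) v := by
    intro X hX
    rw [← dg_union]
    · rw [← inter_union_distrib_left, inter_eq_left.2 hX]
    · exact disjoint_of_subset_left inter_subset_right
        (disjoint_of_subset_right inter_subset_right hd)
  unfold lead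
  rw [key M hM, key B hB]
  push_cast
  ring

/-- edges of `E` inside `X` -/
def inside (s t : ε → V) (E : Finset ε) (X : Finset V) : Finset ε :=
  E.filter (fun e => s e ∈ X ∧ t e ∈ X)

theorem dg_inside_add {E : Finset ε} {X : Finset V} {v : V} (hv : v ∈ X) :
    eIn s t E (X.erase v) + dg s t (inside s t E X) v = eIn s t E X := by
  unfold eIn dg inside
  rw [filter_filter, ← card_union_of_disjoint]
  · congr 1
    ext e
    simp only [mem_union, mem_filter, mem_erase]
    by_cases h1 : s e = v
    · simp only [h1]; tauto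
    · by_cases h2 : t e = v
      · simp only [h2]; tauto
      · tauto
  · rw [disjoint_left]
    intro e h1 h2
    simp only [mem_filter, mem_erase] at h1 h2
    tauto

variable [Fintype V]

/-- a dense set of small connected pieces contains a dense connected small set with large
minimum degree -/
theorem exists_dense {E : Finset ε} {q L : ℕ}
    (h : ¬ ∀ X : Finset V, (∀ R ⊆ X, Conn s t E R → R.card ≤ 2 * L) →
      eIn s t E X ≤ q * X.card) :
    ∃ X : Finset V, X.card ≤ 2 * L ∧ q * X.card < eIn s t E X ∧
      ∀ v ∈ X, q + 1 ≤ dg s t (inside s t E X) v := by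
  classical
  push Not at h
  obtain ⟨X₀, h0, h0'⟩ := h
  have hne : (univ.filter (fun X : Finset V => (∀ R ⊆ X, Conn s t E R → R.card ≤ 2 * L) ∧
      q * X.card < eIn s t E X)).Nonempty := ⟨X₀, by simp only [mem_filter, mem_univ, true_and]; exact ⟨h0, h0'⟩⟩
  obtain ⟨X, hX, hmin⟩ := exists_min_image _ card hne
  simp only [mem_filter, mem_univ, true_and] at hX hmin
  obtain ⟨hX1, hX2⟩ := hX
  have hmin' : ∀ S ⊆ X, S ≠ X → eIn s t E S ≤ q * S.card := by
    intro S hS hne
    by_contra hc
    push Not at hc
    have := hmin S ⟨fun R hR => hX1 R (hR.trans hS), hc⟩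
    exact hne (eq_of_subset_of_card_le hS this)
  have hXne : X.Nonempty := by
    rw [nonempty_iff_ne_empty]
    rintro rfl
    simp [eIn_empty] at hX2
  have hconn : Conn s t E X := by
    by_contra hnc
    obtain ⟨S, hS, hSne, hSneq, hcross⟩ := not_conn hXne hnc
    have h1 := eIn_union_inter (s := s) (t := t) E S (X \ S)
    have e1 : S ∪ (X \ S) = X := union_sdiff_of_subset hS
    have e2 : S ∩ (X \ S) = ∅ := inter_sdiff_self _ _
    have e3 : S \ (X \ S) = S := by
      ext x; simp only [mem_sdiff]; tauto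
    have e4 : (X \ S) \ S = X \ S := by
      ext x; simp only [mem_sdiff]; tauto
    rw [e1, e2, e3, e4, hcross, eIn_empty] at h1
    have h2 := hmin' S hS hSneq
    have h3 := hmin' (X \ S) sdiff_subset (by
      intro h
      obtain ⟨x, hx⟩ := hSne
      have h5 : x ∈ X \ S := by rw [h]; exact hS hx
      exact (mem_sdiff.1 h5).2 hx)
    have h4 : S.card + (X \ S).card = X.card := by
      have := card_sdiff_add_card_eq_card hS
      omega
    have h5 : q * S.card + q * (X \ S).card = q * X.card := by rw [← mul_add, h4]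
    omega
  refine ⟨X, hX1 X (Subset.refl _) hconn, hX2, fun v hv => ?_⟩
  have h1 := dg_inside_add (s := s) (t := t) (E := E) hv
  have h2 := hmin' (X.erase v) (erase_subset _ _) (by
    intro h
    have := notMem_erase v X
    rw [h] at this
    exact this hv)
  have h3 : (X.erase v).card + 1 = X.card := card_erase_add_one hv
  have h4 : q * (X.erase v).card + q = q * X.card := by rw [← h3]; ring
  omega

/-- the carving theorem -/
theorem carve {p q g Δ L n : ℕ} {ε₁ : ℝ} (hP : PP (2 * L) q ε₁) (hε : 0 ≤ ε₁)
    (hΔ1 : 1 ≤ Δ) (hg : g ≤ 2 * Δ) (hL : 2 ≤ L) (hpq : q < p) (hΔL : Δ ≤ 2 * L)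
    (num : ∀ r h : ℕ, L ≤ r → (p - q) * r ≤ 2 * p * h →
      (2 * n : ℝ) < (1 / (8 * (Δ : ℝ))) ^ r * Real.exp ((g : ℝ) ^ 2 * h / (16 * Δ))) :
    ∀ (m : ℕ) (E : Finset ε), E.card = m → (∀ e ∈ E, s e ≠ t e) →
      (∀ v, dg s t E v ≤ Δ) → (univ.filter (fun v => 0 < dg s t E v)).card ≤ n →
      Strat E (fun M B => ∀ v, (lead s t M B v : ℝ) ≤ (p + g + 1 : ℕ) + ε₁ * dg s t E v) := by
  intro m
  induction m using Nat.strong_induction_on with
  | _ m ih =>
    intro E hm hE hΔ hn
    by_cases hsp : ∀ X : Finset V, (∀ R ⊆ X, Conn s t E R → R.card ≤ 2 * L) →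
        eIn s t E X ≤ q * X.card
    · have hPar : Par s t p q g Δ L n E := ⟨hE, hΔ1, hΔ, hg, hL, hpq, hsp, hn, num⟩
      refine (strat_T2 hPar).mono fun M B _ _ _ _ h v => ?_
      have h1 : (lead s t M B v : ℝ) ≤ (p + g + 1 : ℕ) := by
        have h2 := h v
        have h3 : lead s t M B v ≤ ((p + g + 1 : ℕ) : ℤ) := by push_cast; exact h2
        exact_mod_cast h3
      have h4 : 0 ≤ ε₁ * dg s t E v := by positivity
      linarith
    · obtain ⟨X, hXL, hXe, hXd⟩ := exists_dense hsp
      set E₁ := inside s t E X with hE₁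
      have hE₁E : E₁ ⊆ E := filter_subset _ _
      have hE₁c : E₁.card = eIn s t E X := rfl
      have hout : ∀ v, v ∉ X → dg s t E₁ v = 0 := by
        intro v hv
        unfold dg
        rw [card_eq_zero, filter_eq_empty_iff]
        intro e he h
        rw [hE₁, inside, mem_filter] at he
        rcases h with h | h
        · exact hv (h ▸ he.2.1)
        · exact hv (h ▸ he.2.2)
      have s1 : Strat E₁ (fun M B => ∀ v, (lead s t M B v : ℝ) ≤ ε₁ * dg s t E₁ v) := by
        refine hP ε V s t E₁ (fun e he => hE e (hE₁E he)) ?_ ?_ ?_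
        · refine (card_le_card ?_).trans hXL
          intro v hv
          rw [mem_filter] at hv
          by_contra hvX
          have := hout v hvX
          omega
        · intro v
          by_cases hv : v ∈ X
          · right; have := hXd v hv; omega
          · left; exact hout v hv
        · intro v
          exact (dg_mono hE₁E v).trans ((hΔ v).trans hΔL)
      have hcard : (E \ E₁).card < m := by
        rw [← hm]
        refine card_lt_card ?_
        rw [ssubset_iff_subset_ne]
        refine ⟨sdiff_subset, fun h => ?_⟩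
        have h1 : 0 < E₁.card := by rw [hE₁c]; omega
        obtain ⟨e, he⟩ := card_pos.1 h1
        have h2 : e ∈ E \ E₁ := by rw [h]; exact hE₁E he
        exact (mem_sdiff.1 h2).2 he
      have s2 := ih _ hcard (E \ E₁) rfl (fun e he => hE e (mem_sdiff.1 he).1)
        (fun v => (dg_mono sdiff_subset v).trans (hΔ v))
        ((card_le_card (fun v hv => by
          rw [mem_filter] at hv ⊢
          exact ⟨hv.1, hv.2.trans_le (dg_mono sdiff_subset v)⟩)).trans hn)
      have hdis : Disjoint E₁ (E \ E₁) := disjoint_sdiff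
      have hun : E₁ ∪ (E \ E₁) = E := union_sdiff_of_subset hE₁E
      have s3 := s1.union hdis s2
      rw [hun] at s3
      refine s3.mono fun M B hM hB _ _ h v => ?_
      rw [lead_union hdis (hun.symm ▸ hM) (hun.symm ▸ hB)]
      have h1 := h.1 v
      have h2 := h.2 v
      have h3 : (dg s t E v : ℝ) = dg s t E₁ v + dg s t (E \ E₁) v := by
        have := dg_union (s := s) (t := t) hdis v
        rw [hun] at this
        exact_mod_cast this
      rw [h3]
      push_cast at h1 h2 ⊢
      linarith

end

/-- colouring of a large set with colour classes of size in `[d, 2d)` -/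
theorem exists_colouring {ε : Type} [DecidableEq ε] {d : ℕ} (hd : 1 ≤ d) :
    ∀ (m : ℕ) (I : Finset ε), I.card = m → d ≤ m →
      ∃ c : ε → ℕ, (∀ e, c e ≤ m) ∧
        ∀ i, (I.filter (fun e => c e = i)).card = 0 ∨
          (d ≤ (I.filter (fun e => c e = i)).card ∧ (I.filter (fun e => c e = i)).card < 2 * d) := by
  intro m
  induction m using Nat.strong_induction_on with
  | _ m ih =>
    intro I hI hdm
    by_cases hlt : m < 2 * d
    · refine ⟨fun _ => 0, fun _ => Nat.zero_le _, fun i => ?_⟩
      by_cases hi : i = 0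
      · right
        subst hi
        simp only [filter_true, hI]
        exact ⟨hdm, hlt⟩
      · left
        rw [card_eq_zero, filter_eq_empty_iff]
        intro e _ h
        exact hi h.symm
    · push Not at hlt
      obtain ⟨J, hJ, hJc⟩ := exists_subset_card_eq (s := I) (n := d) (by omega)
      have hc : (I \ J).card = m - d := by
        rw [card_sdiff_of_subset hJ, hI, hJc]
      obtain ⟨c, hc1, hc2⟩ := ih (m - d) (by omega) (I \ J) hc (by omega)
      refine ⟨fun e => if e ∈ J then 0 else c e + 1, fun e => ?_, fun i => ?_⟩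
      · simp only
        split_ifs
        · omega
        · have := hc1 e; omega
      · match i with
        | 0 =>
          right
          have : I.filter (fun e => (if e ∈ J then 0 else c e + 1) = 0) = J := by
            ext e
            rw [mem_filter]
            constructor
            · rintro ⟨_, h⟩
              by_contra hn
              rw [if_neg hn] at h
              omega
            · intro h
              exact ⟨hJ h, by rw [if_pos h]⟩
          rw [this, hJc]
          exact ⟨le_rfl, by omega⟩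
        | (i + 1) =>
          have : I.filter (fun e => (if e ∈ J then 0 else c e + 1) = i + 1) =
              (I \ J).filter (fun e => c e = i) := by
            ext e
            rw [mem_filter, mem_filter, mem_sdiff]
            constructor
            · rintro ⟨h1, h⟩
              by_cases hJe : e ∈ J
              · rw [if_pos hJe] at h; omega
              · rw [if_neg hJe] at h
                exact ⟨⟨h1, hJe⟩, by omega⟩
            · rintro ⟨⟨h1, h2⟩, h3⟩
              exact ⟨h1, by rw [if_neg h2, h3]⟩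
          rw [this]
          exact hc2 i

/-- the induction step -/
theorem PP_step {N d q p g L : ℕ} {ε₁ : ℝ} (hP : PP (2 * L) q ε₁) (hε : 0 ≤ ε₁) (hd : 1 ≤ d)
    (hdL : d ≤ L) (hg : g ≤ 4 * d) (hL : 2 ≤ L) (hpq : q < p)
    (num : ∀ r h : ℕ, L ≤ r → (p - q) * r ≤ 2 * p * h →
      (2 * ((N * (N + 1) : ℕ) : ℝ)) < (1 / (8 * ((2 * d : ℕ) : ℝ))) ^ r *
        Real.exp ((g : ℝ) ^ 2 * h / (16 * ((2 * d : ℕ) : ℝ)))) :
    PP N d (((p + g + 1 : ℕ) : ℝ) / d + ε₁) := by
  intro ε V _ _ _ s t E hE hN hdd hdN
  have hcol : ∀ v : V, ∃ c : ε → ℕ, (∀ e, c e ≤ N) ∧ ∀ i,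
      ((E.filter (fun e => s e = v ∨ t e = v)).filter (fun e => c e = i)).card = 0 ∨
      (d ≤ ((E.filter (fun e => s e = v ∨ t e = v)).filter (fun e => c e = i)).card ∧
      ((E.filter (fun e => s e = v ∨ t e = v)).filter (fun e => c e = i)).card < 2 * d) := by
    intro v
    rcases hdd v with h | h
    · refine ⟨fun _ => 0, fun _ => Nat.zero_le _, fun i => Or.inl ?_⟩
      unfold dg at h
      rw [card_eq_zero] at h
      rw [h]; simp
    · obtain ⟨c, h1, h2⟩ := exists_colouring hd _ (E.filter (fun e => s e = v ∨ t e = v)) rfl h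
      exact ⟨c, fun e => (h1 e).trans (hdN v), h2⟩
  choose c hc1 hc2 using hcol
  set s' : ε → V × Fin (N + 1) := fun e => (s e, ⟨c (s e) e, Nat.lt_succ_of_le (hc1 _ e)⟩) with hs'
  set t' : ε → V × Fin (N + 1) := fun e => (t e, ⟨c (t e) e, Nat.lt_succ_of_le (hc1 _ e)⟩) with ht'
  have hdg : ∀ (X : Finset ε) (v : V) (i : Fin (N + 1)), dg s' t' X (v, i) =
      ((X.filter (fun e => s e = v ∨ t e = v)).filter (fun e => c v e = i)).card := by
    intro X v i
    unfold dg
    rw [filter_filter]
    congr 1
    ext e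
    simp only [mem_filter, hs', ht', Prod.mk.injEq, Fin.ext_iff]
    constructor
    · rintro ⟨h1, ⟨h2, h3⟩ | ⟨h2, h3⟩⟩
      · exact ⟨h1, Or.inl h2, by rw [← h2]; exact h3⟩
      · exact ⟨h1, Or.inr h2, by rw [← h2]; exact h3⟩
    · rintro ⟨h1, h2 | h2, h3⟩
      · exact ⟨h1, Or.inl ⟨h2, by rw [h2]; exact h3⟩⟩
      · exact ⟨h1, Or.inr ⟨h2, by rw [h2]; exact h3⟩⟩
  have hdsum : ∀ (X : Finset ε) (v : V), dg s t X v = ∑ i : Fin (N + 1), dg s' t' X (v, i) := by
    intro X v
    simp only [hdg]
    unfold dg
    rw [card_eq_sum_card_fiberwise (f := fun e => (⟨c v e, Nat.lt_succ_of_le (hc1 v e)⟩ :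
      Fin (N + 1))) (t := univ) (fun e _ => by simp)]
    refine sum_congr rfl fun i _ => ?_
    congr 1
    ext e
    simp only [mem_filter, Fin.ext_iff]
  have hdeg : ∀ v : V × Fin (N + 1), dg s' t' E v = 0 ∨
      (d ≤ dg s' t' E v ∧ dg s' t' E v < 2 * d) := by
    rintro ⟨v, i⟩
    rw [hdg]
    exact hc2 v i
  have hmain := carve (s := s') (t := t') (n := N * (N + 1)) hP hε (Δ := 2 * d) (by omega)
    (by omega) hL hpq (by omega) num _ E rfl
    (fun e he h => hE e he (by
      simp only [hs', ht', Prod.mk.injEq] at h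
      exact h.1))
    (fun v => by rcases hdeg v with h | h <;> omega)
    (by
      have : univ.filter (fun v => 0 < dg s' t' E v) ⊆
          (univ.filter (fun v => 0 < dg s t E v)) ×ˢ (univ : Finset (Fin (N + 1))) := by
        rintro ⟨v, i⟩ hv
        rw [mem_filter] at hv
        rw [mem_product, mem_filter]
        refine ⟨⟨mem_univ _, ?_⟩, mem_univ _⟩
        rw [hdsum]
        exact hv.2.trans_le (single_le_sum (f := fun i => dg s' t' E (v, i))
          (fun _ _ => Nat.zero_le _) (mem_univ i))
      refine (card_le_card this).trans ?_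
      rw [card_product, card_univ, Fintype.card_fin]
      exact Nat.mul_le_mul_right _ hN)
  refine hmain.mono fun M B hM hB hMB hEMB h v => ?_
  have hlead : (lead s t M B v : ℝ) = ∑ i : Fin (N + 1), (lead s' t' M B (v, i) : ℝ) := by
    unfold lead
    rw [hdsum M, hdsum B]
    push_cast
    rw [sum_sub_distrib]
  rw [hlead, hdsum E]
  push_cast
  rw [mul_sum]
  refine sum_le_sum fun i _ => ?_
  have hd0 : (0 : ℝ) < d := by exact_mod_cast hd
  rcases hdeg (v, i) with h0 | h1
  · have hb : dg s' t' B (v, i) = 0 := by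
      have := dg_mono (s := s') (t := t') hB (v, i); omega
    have hm : dg s' t' M (v, i) = 0 := by
      have := dg_mono (s := s') (t := t') hM (v, i); omega
    unfold lead
    rw [hb, hm, h0]
    simp
  · have h2 := h (v, i)
    have h3 : (d : ℝ) ≤ dg s' t' E (v, i) := by exact_mod_cast h1.1
    have h4 : ((p + g + 1 : ℕ) : ℝ) ≤ ((p + g + 1 : ℕ) : ℝ) / d * dg s' t' E (v, i) := by
      rw [div_mul_eq_mul_div, le_div_iff₀ hd0]
      exact mul_le_mul_of_nonneg_left h3 (by positivity)
    push_cast at h2 h4 ⊢
    linarith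

end Pool.Agent.helper36.MD
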