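import Mathlib

/-!
The unbiased Maker-Breaker game on a finite board, by backward induction.
-/

set_option autoImplicit false
open Finset

namespace Pool.Agent.helper36.MD

variable {ε : Type} [DecidableEq ε]

/-- Backward induction value of the game on the board `E` in which each player in turn claims one
unclaimed element: `M` and `B` are the sets already claimed by Maker and by Breaker, `k` is the
number of moves still to be made (the number of unclaimed elements), and the flag is `true` when
Maker is to move. `goal` is a property of the final set of Maker. The whole game, with Maker moving
first, is `MakerWins E goal E.card true ∅ ∅`. -/
def MakerWins (E : Finset ε) (goal : Finset ε → Prop) :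
    ℕ → Bool → Finset ε → Finset ε → Prop
  | 0, _, M, _ => goal M
  | (k + 1), true, M, B => ∃ e ∈ E \ (M ∪ B), MakerWins E goal k false (insert e M) B
  | (k + 1), false, M, B => ∀ e ∈ E \ (M ∪ B), MakerWins E goal k true M (insert e B)

end Pool.Agent.helper36.MD
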