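import Mathlib

/-!
Boards whose elements are the edges of a finite (multi)graph: degrees, inner edges, connected
vertex sets.
-/

set_option autoImplicit false
set_option linter.unusedSectionVars false
set_option linter.unusedVariables false
open Finset

namespace Pool.Agent.helper36.MD

variable {ε : Type} [DecidableEq ε] {V : Type} [DecidableEq V] (s t : ε → V)

/-- number of edges of `X` at `v` -/
def dg (X : Finset ε) (v : V) : ℕ := (X.filter (fun e => s e = v ∨ t e = v)).card

/-- number of edges of `X` inside `R` -/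
def eIn (X : Finset ε) (R : Finset V) : ℕ := (X.filter (fun e => s e ∈ R ∧ t e ∈ R)).card

/-- number of edges of `X` between `P` and `Q` -/
def cross (X : Finset ε) (P Q : Finset V) : ℕ :=
  (X.filter (fun e => (s e ∈ P ∧ t e ∈ Q) ∨ (s e ∈ Q ∧ t e ∈ P))).card

/-- Breaker's lead at `v` -/
def lead (M B : Finset ε) (v : V) : ℤ := (dg s t B v : ℤ) - dg s t M v

/-- nonempty, and every proper nonempty subset sends an edge to the rest -/
def Conn (E : Finset ε) (R : Finset V) : Prop :=
  R.Nonempty ∧ ∀ S ⊆ R, S.Nonempty → S ≠ R →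
    ∃ e ∈ E, (s e ∈ S ∧ t e ∈ R \ S) ∨ (t e ∈ S ∧ s e ∈ R \ S)

variable {s t}

theorem dg_mono {X Y : Finset ε} (h : X ⊆ Y) (v : V) : dg s t X v ≤ dg s t Y v :=
  card_le_card (filter_subset_filter _ h)

theorem eIn_mono {X Y : Finset ε} (h : X ⊆ Y) (R : Finset V) : eIn s t X R ≤ eIn s t Y R :=
  card_le_card (filter_subset_filter _ h)

theorem dg_empty (v : V) : dg s t (∅ : Finset ε) v = 0 := by simp [dg]

theorem dg_insert {X : Finset ε} {e : ε} (he : e ∉ X) (v : V) :
    dg s t (insert e X) v = dg s t X v + if s e = v ∨ t e = v then 1 else 0 := by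
  unfold dg
  rw [filter_insert]
  split_ifs with h
  · rw [card_insert_of_notMem (by simp [he])]
  · simp

theorem dg_union {X Y : Finset ε} (h : Disjoint X Y) (v : V) :
    dg s t (X ∪ Y) v = dg s t X v + dg s t Y v := by
  unfold dg
  rw [filter_union, card_union_of_disjoint (disjoint_filter_filter h)]

theorem eIn_insert {X : Finset ε} {e : ε} (he : e ∉ X) (R : Finset V) :
    eIn s t (insert e X) R = eIn s t X R + if s e ∈ R ∧ t e ∈ R then 1 else 0 := by
  unfold eIn
  rw [filter_insert]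
  split_ifs with h
  · rw [card_insert_of_notMem (by simp [he])]
  · simp

theorem eIn_erase {X : Finset ε} {e : ε} (he : e ∈ X) (R : Finset V) :
    eIn s t (X.erase e) R + (if s e ∈ R ∧ t e ∈ R then 1 else 0) = eIn s t X R := by
  have := eIn_insert (s := s) (t := t) (notMem_erase e X) R
  rw [insert_erase he] at this
  exact this.symm

theorem eIn_empty (X : Finset ε) : eIn s t X (∅ : Finset V) = 0 := by simp [eIn]

/-- exact form of supermodularity -/
theorem eIn_union_inter (X : Finset ε) (P Q : Finset V) :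
    eIn s t X (P ∪ Q) + eIn s t X (P ∩ Q) =
      eIn s t X P + eIn s t X Q + cross s t X (P \ Q) (Q \ P) := by
  unfold eIn cross
  simp only [card_filter]
  rw [← sum_add_distrib, ← sum_add_distrib, ← sum_add_distrib]
  refine sum_congr rfl fun e _ => ?_
  by_cases h1 : s e ∈ P <;> by_cases h2 : s e ∈ Q <;> by_cases h3 : t e ∈ P <;>
    by_cases h4 : t e ∈ Q <;> simp [h1, h2, h3, h4]

theorem cross_pos {X : Finset ε} {P Q : Finset V} {e : ε} (he : e ∈ X)
    (h : (s e ∈ P ∧ t e ∈ Q) ∨ (s e ∈ Q ∧ t e ∈ P)) : 1 ≤ cross s t X P Q := by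
  unfold cross
  exact card_pos.2 ⟨e, mem_filter.2 ⟨he, h⟩⟩

theorem cross_eq_zero {X : Finset ε} {P Q : Finset V}
    (h : ∀ e ∈ X, ¬ ((s e ∈ P ∧ t e ∈ Q) ∨ (s e ∈ Q ∧ t e ∈ P))) : cross s t X P Q = 0 := by
  unfold cross
  rw [card_eq_zero, filter_eq_empty_iff]
  exact h

theorem Conn.singleton (E : Finset ε) (v : V) : Conn s t E {v} := by
  refine ⟨singleton_nonempty v, fun S hS hne hneq => ?_⟩
  exfalso
  rcases subset_singleton_iff.1 hS with h | h
  · exact hne.ne_empty h
  · exact hneq h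

theorem Conn.mono {E E' : Finset ε} (h : E ⊆ E') {R : Finset V} (hR : Conn s t E R) :
    Conn s t E' R := by
  refine ⟨hR.1, fun S hS hne hneq => ?_⟩
  obtain ⟨e, he, h'⟩ := hR.2 S hS hne hneq
  exact ⟨e, h he, h'⟩

/-- a connected set which meets `U` but is not inside `U` has an edge leaving `U` -/
theorem Conn.exit {E : Finset ε} {R U : Finset V} (hR : Conn s t E R) (h1 : (R ∩ U).Nonempty)
    (h2 : ¬ R ⊆ U) : ∃ e ∈ E, (s e ∈ R ∩ U ∧ t e ∈ R \ U) ∨ (t e ∈ R ∩ U ∧ s e ∈ R \ U) := by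
  have hne : R ∩ U ≠ R := fun h => h2 (by rw [← h]; exact inter_subset_right)
  obtain ⟨e, he, h'⟩ := hR.2 (R ∩ U) inter_subset_left h1 hne
  refine ⟨e, he, ?_⟩
  have : R \ (R ∩ U) = R \ U := by
    ext x
    simp only [mem_sdiff, mem_inter]
    tauto
  rwa [this] at h'

/-- two connected sets which meet or are joined by an edge have a connected union -/
theorem Conn.union {E : Finset ε} {P Q : Finset V} (hP : Conn s t E P) (hQ : Conn s t E Q)
    (h : (P ∩ Q).Nonempty ∨ ∃ e ∈ E, (s e ∈ P ∧ t e ∈ Q) ∨ (t e ∈ P ∧ s e ∈ Q)) :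
    Conn s t E (P ∪ Q) := by
  refine ⟨hP.1.mono subset_union_left, fun S hS hne hneq => ?_⟩
  by_cases c1 : (P ∩ S).Nonempty ∧ ¬ P ⊆ S
  · obtain ⟨e, he, h'⟩ := hP.exit c1.1 c1.2
    refine ⟨e, he, ?_⟩
    simp only [mem_inter, mem_sdiff, mem_union] at h' ⊢
    tauto
  · by_cases c2 : (Q ∩ S).Nonempty ∧ ¬ Q ⊆ S
    · obtain ⟨e, he, h'⟩ := hQ.exit c2.1 c2.2
      refine ⟨e, he, ?_⟩
      simp only [mem_inter, mem_sdiff, mem_union] at h' ⊢
      tauto
    · -- each of `P`, `Q` is inside `S` or disjoint from `S`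
      have d1 : P ⊆ S ∨ Disjoint P S := by
        by_cases h1 : P ⊆ S
        · exact Or.inl h1
        · refine Or.inr (disjoint_iff_inter_eq_empty.2 ?_)
          by_contra h2
          exact c1 ⟨nonempty_iff_ne_empty.2 h2, h1⟩
      have d2 : Q ⊆ S ∨ Disjoint Q S := by
        by_cases h1 : Q ⊆ S
        · exact Or.inl h1
        · refine Or.inr (disjoint_iff_inter_eq_empty.2 ?_)
          by_contra h2
          exact c2 ⟨nonempty_iff_ne_empty.2 h2, h1⟩
      have hb : ¬ (P ⊆ S ∧ Q ⊆ S) := fun h => hneq (hS.antisymm (union_subset h.1 h.2))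
      have hd : ¬ (Disjoint P S ∧ Disjoint Q S) := by
        rintro ⟨h1, h2⟩
        obtain ⟨x, hx⟩ := hne
        rcases mem_union.1 (hS hx) with h | h
        · exact disjoint_left.1 h1 h hx
        · exact disjoint_left.1 h2 h hx
      have main : ∀ {P' Q' : Finset V}, P' ⊆ S → Disjoint Q' S → P' ⊆ P ∪ Q → Q' ⊆ P ∪ Q →
          ((P' ∩ Q').Nonempty ∨ ∃ e ∈ E, (s e ∈ P' ∧ t e ∈ Q') ∨ (t e ∈ P' ∧ s e ∈ Q')) →
          ∃ e ∈ E, (s e ∈ S ∧ t e ∈ (P ∪ Q) \ S) ∨ (t e ∈ S ∧ s e ∈ (P ∪ Q) \ S) := by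
        intro P' Q' h1 h2 h3 h4 h5
        rcases h5 with ⟨x, hx⟩ | ⟨e, he, h5⟩
        · exfalso
          rw [mem_inter] at hx
          exact disjoint_left.1 h2 hx.2 (h1 hx.1)
        · refine ⟨e, he, ?_⟩
          rcases h5 with ⟨h5, h6⟩ | ⟨h5, h6⟩
          · exact Or.inl ⟨h1 h5, mem_sdiff.2 ⟨h4 h6, fun h => disjoint_left.1 h2 h6 h⟩⟩
          · exact Or.inr ⟨h1 h5, mem_sdiff.2 ⟨h4 h6, fun h => disjoint_left.1 h2 h6 h⟩⟩
      rcases d1 with d1 | d1 <;> rcases d2 with d2 | d2
      · exact absurd ⟨d1, d2⟩ hb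
      · exact main d1 d2 subset_union_left subset_union_right h
      · refine main d2 d1 subset_union_right subset_union_left ?_
        rcases h with h | ⟨e, he, h⟩
        · left; rwa [inter_comm]
        · right; exact ⟨e, he, by tauto⟩
      · exact absurd ⟨d1, d2⟩ hd

/-- a connected set together with connected sets attached to it -/
theorem Conn.biUnion {E : Finset ε} {C : Finset V} (hC : Conn s t E C) {ι : Type}
    [DecidableEq ι] (I : Finset ι) (U : ι → Finset V) (hU : ∀ i ∈ I, Conn s t E (U i))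
    (h : ∀ i ∈ I, ∃ e ∈ E, (s e ∈ C ∧ t e ∈ U i) ∨ (t e ∈ C ∧ s e ∈ U i)) :
    Conn s t E (C ∪ I.biUnion U) := by
  induction I using Finset.induction_on with
  | empty => simpa using hC
  | insert i I hi ih =>
    have h1 := ih (fun j hj => hU j (mem_insert_of_mem hj))
      (fun j hj => h j (mem_insert_of_mem hj))
    have h2 := h1.union (hU i (mem_insert_self _ _)) (by
      right
      obtain ⟨e, he, h'⟩ := h i (mem_insert_self _ _)
      refine ⟨e, he, ?_⟩
      simp only [mem_union]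
      tauto)
    rw [biUnion_insert]
    have e1 : C ∪ (U i ∪ I.biUnion U) = C ∪ I.biUnion U ∪ U i := by
      ext x
      simp only [mem_union]
      tauto
    rw [e1]
    exact h2

/-- if a nonempty set is not connected it splits into two parts with no edge between them -/
theorem not_conn {E : Finset ε} {R : Finset V} (hne : R.Nonempty) (h : ¬ Conn s t E R) :
    ∃ S ⊆ R, S.Nonempty ∧ S ≠ R ∧ cross s t E S (R \ S) = 0 := by
  unfold Conn at h
  push Not at h
  obtain ⟨S, hS, hSne, hneq, h'⟩ := h hne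
  refine ⟨S, hS, hSne, hneq, cross_eq_zero fun e he => ?_⟩
  have := h' e he
  tauto

/-- the number of ends of `e` in `S` -/
def cnt (s t : ε → V) (S : Finset V) (e : ε) : ℕ :=
  (if s e ∈ S then 1 else 0) + (if t e ∈ S then 1 else 0)

theorem cnt_le_two (S : Finset V) (e : ε) : cnt s t S e ≤ 2 := by
  unfold cnt
  split_ifs <;> simp

theorem sum_cnt {X : Finset ε} (hX : ∀ e ∈ X, s e ≠ t e) (S : Finset V) :
    ∑ e ∈ X, cnt s t S e = ∑ v ∈ S, dg s t X v := by
  unfold dg cnt
  simp only [card_filter]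
  rw [sum_comm]
  refine sum_congr rfl fun e he => ?_
  have hne := hX e he
  have h1 : ∀ v : V, (if s e = v ∨ t e = v then (1:ℕ) else 0) =
      (if s e = v then 1 else 0) + (if t e = v then 1 else 0) := by
    intro v
    by_cases ha : s e = v
    · have hb : t e ≠ v := fun hb => hne (ha.trans hb.symm)
      simp [ha, hb]
    · simp [ha]
  simp only [h1]
  rw [sum_add_distrib, sum_ite_eq, sum_ite_eq]

end Pool.Agent.helper36.MD
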