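import Mathlib

/-!
The Erdős–Selfridge type potential for Maker against a family of weighted discrepancies.
-/

set_option autoImplicit false
set_option linter.unusedSectionVars false
set_option linter.unusedVariables false
open Finset

namespace Pool.Agent.helper36.MD

variable {ε : Type} [DecidableEq ε] {ι : Type}

/-- weight of an index -/
noncomputable def wt (c : ι → ℝ) (a : ι → ε → ℝ) (M B : Finset ε) (i : ι) : ℝ :=
  c i * ((∏ e ∈ B, (1 + a i e)) * ∏ e ∈ M, (1 - a i e))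

/-- the potential -/
noncomputable def pot (T : Finset ι) (c : ι → ℝ) (a : ι → ε → ℝ) (M B : Finset ε) : ℝ :=
  ∑ i ∈ T, wt c a M B i

/-- the value of an element -/
noncomputable def val (T : Finset ι) (c : ι → ℝ) (a : ι → ε → ℝ) (M B : Finset ε) (e : ε) : ℝ :=
  ∑ i ∈ T, a i e * wt c a M B i

variable {T : Finset ι} {c : ι → ℝ} {a : ι → ε → ℝ}

theorem wt_insert_B {M B : Finset ε} {f : ε} (hf : f ∉ B) (i : ι) :
    wt c a M (insert f B) i = wt c a M B i + a i f * wt c a M B i := by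
  unfold wt
  rw [prod_insert hf]
  ring

theorem wt_insert_M {M B : Finset ε} {e : ε} (he : e ∉ M) (i : ι) :
    wt c a (insert e M) B i = wt c a M B i - a i e * wt c a M B i := by
  unfold wt
  rw [prod_insert he]
  ring

theorem wt_nonneg (hc : ∀ i ∈ T, 0 ≤ c i) (ha : ∀ i ∈ T, ∀ e, 0 ≤ a i e ∧ a i e ≤ 1)
    (M B : Finset ε) {i : ι} (hi : i ∈ T) : 0 ≤ wt c a M B i := by
  unfold wt
  refine mul_nonneg (hc i hi) (mul_nonneg (prod_nonneg fun e _ => ?_) (prod_nonneg fun e _ => ?_))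
  · linarith [(ha i hi e).1]
  · linarith [(ha i hi e).2]

theorem pot_insert_B {M B : Finset ε} {f : ε} (hf : f ∉ B) :
    pot T c a M (insert f B) = pot T c a M B + val T c a M B f := by
  unfold pot val
  rw [← sum_add_distrib]
  exact sum_congr rfl fun i _ => wt_insert_B hf i

theorem pot_insert_M {M B : Finset ε} {e : ε} (he : e ∉ M) :
    pot T c a (insert e M) B = pot T c a M B - val T c a M B e := by
  unfold pot val
  rw [← sum_sub_distrib]
  exact sum_congr rfl fun i _ => wt_insert_M he i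

theorem val_insert_M_le (hc : ∀ i ∈ T, 0 ≤ c i) (ha : ∀ i ∈ T, ∀ e, 0 ≤ a i e ∧ a i e ≤ 1)
    {M B : Finset ε} {e : ε} (he : e ∉ M) (f : ε) :
    val T c a (insert e M) B f ≤ val T c a M B f := by
  unfold val
  refine sum_le_sum fun i hi => ?_
  rw [wt_insert_M he]
  have h1 := wt_nonneg hc ha M B hi
  have h2 := (ha i hi e).1
  have h3 := (ha i hi f).1
  nlinarith [mul_nonneg h2 h1, mul_nonneg h3 (mul_nonneg h2 h1)]

theorem val_nonneg (hc : ∀ i ∈ T, 0 ≤ c i) (ha : ∀ i ∈ T, ∀ e, 0 ≤ a i e ∧ a i e ≤ 1)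
    (M B : Finset ε) (f : ε) : 0 ≤ val T c a M B f := by
  unfold val
  exact sum_nonneg fun i hi => mul_nonneg (ha i hi f).1 (wt_nonneg hc ha M B hi)

theorem val_le_pot (hc : ∀ i ∈ T, 0 ≤ c i) (ha : ∀ i ∈ T, ∀ e, 0 ≤ a i e ∧ a i e ≤ 1)
    (M B : Finset ε) (f : ε) : val T c a M B f ≤ pot T c a M B := by
  unfold val pot
  refine sum_le_sum fun i hi => ?_
  have h1 := wt_nonneg hc ha M B hi
  have h2 := (ha i hi f).2
  nlinarith

theorem pot_empty : pot T c a (∅ : Finset ε) ∅ = ∑ i ∈ T, c i := by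
  unfold pot wt
  simp

theorem wt_le_pot (hc : ∀ i ∈ T, 0 ≤ c i) (ha : ∀ i ∈ T, ∀ e, 0 ≤ a i e ∧ a i e ≤ 1)
    (M B : Finset ε) {i : ι} (hi : i ∈ T) : wt c a M B i ≤ pot T c a M B := by
  unfold pot
  exact single_le_sum (fun j hj => wt_nonneg hc ha M B hj) hi

/-- the invariant of the potential strategy, `U` being the set of available elements -/
def PotInv (T : Finset ι) (c : ι → ℝ) (a : ι → ε → ℝ) (Φ : ℝ) (U M B : Finset ε) : Prop :=
  pot T c a M B ≤ Φ ∧ ∀ f ∈ U, pot T c a M B + val T c a M B f ≤ Φ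

theorem PotInv.mono {Φ : ℝ} {U U' M B : Finset ε} (h : PotInv T c a Φ U M B) (hU : U' ⊆ U) :
    PotInv T c a Φ U' M B := ⟨h.1, fun f hf => h.2 f (hU hf)⟩

theorem PotInv.init (hc : ∀ i ∈ T, 0 ≤ c i) (ha : ∀ i ∈ T, ∀ e, 0 ≤ a i e ∧ a i e ≤ 1)
    {Φ : ℝ} (U : Finset ε) (h : 2 * ∑ i ∈ T, c i ≤ Φ) : PotInv T c a Φ U ∅ ∅ := by
  have h0 : 0 ≤ ∑ i ∈ T, c i := sum_nonneg hc
  refine ⟨?_, fun f _ => ?_⟩
  · rw [pot_empty]; linarith
  · have := val_le_pot hc ha (∅ : Finset ε) ∅ f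
    rw [pot_empty] at this ⊢
    linarith

/-- Breaker claims `f`; Maker answers with the best element of `U'`. -/
theorem PotInv.reply (hc : ∀ i ∈ T, 0 ≤ c i) (ha : ∀ i ∈ T, ∀ e, 0 ≤ a i e ∧ a i e ≤ 1)
    {Φ : ℝ} {U U' M B : Finset ε} (h : PotInv T c a Φ U M B) {f : ε} (hf : f ∈ U) (hfB : f ∉ B)
    (hU' : ∀ e ∈ U', e ∉ M) :
    pot T c a M (insert f B) ≤ Φ ∧
    (U'.Nonempty → ∃ e ∈ U', PotInv T c a Φ U' (insert e M) (insert f B)) := by
  have h1 : pot T c a M (insert f B) ≤ Φ := by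
    rw [pot_insert_B hfB]; exact h.2 f hf
  refine ⟨h1, fun hne => ?_⟩
  obtain ⟨e, he, hmax⟩ := exists_max_image U' (fun e => val T c a M (insert f B) e) hne
  refine ⟨e, he, ?_, ?_⟩
  · rw [pot_insert_M (hU' e he)]
    linarith [val_nonneg hc ha M (insert f B) e]
  · intro f' hf'
    rw [pot_insert_M (hU' e he)]
    have h2 := val_insert_M_le hc ha (B := insert f B) (hU' e he) f'
    have h3 := hmax f' hf'
    linarith

theorem log_one_add_ge {x : ℝ} (hx : 0 ≤ x) : Real.exp (x - 2 * x ^ 2) ≤ 1 + x := by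
  have h1 : 0 < 1 + x := by linarith
  rw [← Real.le_log_iff_exp_le h1]
  have h2 := Real.one_sub_inv_le_log_of_pos h1
  refine le_trans ?_ h2
  have h3 : (1 + x)⁻¹ * (1 + x) = 1 := inv_mul_cancel₀ h1.ne'
  have h4 : 0 < (1 + x)⁻¹ := inv_pos.2 h1
  have h5 : (1 + x)⁻¹ ≤ 1 := by
    rw [inv_le_one₀ h1]; linarith
  nlinarith [sq_nonneg x, mul_nonneg (sq_nonneg x) (sub_nonneg.2 h5)]

theorem log_one_sub_ge {x : ℝ} (hx : 0 ≤ x) (hx' : x ≤ 1 / 2) :
    Real.exp (-x - 2 * x ^ 2) ≤ 1 - x := by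
  have h1 : 0 < 1 - x := by linarith
  rw [← Real.le_log_iff_exp_le h1]
  have h2 := Real.one_sub_inv_le_log_of_pos h1
  refine le_trans ?_ h2
  have h3 : (1 - x)⁻¹ ≤ 1 + x + 2 * x ^ 2 := by
    rw [inv_le_iff_one_le_mul₀ h1]
    nlinarith [sq_nonneg x, mul_nonneg (sq_nonneg x) hx]
  linarith

/-- lower bound for the products in the weights -/
theorem prod_ge_exp {M B : Finset ε} (x : ε → ℝ) (h0 : ∀ e, 0 ≤ x e) (h1 : ∀ e, x e ≤ 1 / 2) :
    Real.exp ((∑ e ∈ B, x e) - (∑ e ∈ M, x e) - 2 * ((∑ e ∈ B, x e ^ 2) + ∑ e ∈ M, x e ^ 2)) ≤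
      (∏ e ∈ B, (1 + x e)) * ∏ e ∈ M, (1 - x e) := by
  have e1 : (∑ e ∈ B, x e) - (∑ e ∈ M, x e) - 2 * ((∑ e ∈ B, x e ^ 2) + ∑ e ∈ M, x e ^ 2) =
      (∑ e ∈ B, (x e - 2 * x e ^ 2)) + ∑ e ∈ M, (-x e - 2 * x e ^ 2) := by
    rw [sum_sub_distrib, sum_sub_distrib, ← mul_sum, ← mul_sum, sum_neg_distrib]
    ring
  rw [e1, Real.exp_add, Real.exp_sum, Real.exp_sum]
  refine mul_le_mul ?_ ?_ (prod_nonneg fun e _ => (Real.exp_pos _).le)
    (prod_nonneg fun e _ => by linarith [h0 e])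
  · exact prod_le_prod (fun e _ => (Real.exp_pos _).le) fun e _ => log_one_add_ge (h0 e)
  · exact prod_le_prod (fun e _ => (Real.exp_pos _).le) fun e _ => log_one_sub_ge (h0 e) (h1 e)

end Pool.Agent.helper36.MD
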