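import Pool.Agent.helper36.MD.Final

/-!
Graphs of arbitrary size in which all small sets are sparse.
-/

set_option autoImplicit false
set_option linter.unusedSectionVars false
set_option linter.unusedVariables false
open Finset

namespace Pool.Agent.helper36.MD

/-- boards in which small sets are sparse -/
theorem sparse_strat {ε V : Type} [DecidableEq ε] [DecidableEq V] [Fintype V] {s t : ε → V}
    {E : Finset ε} {N d q p g L : ℕ} (hd : 1 ≤ d) (hg : g ≤ 4 * d) (hL : 2 ≤ L) (hpq : q < p)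
    (num : ∀ r h : ℕ, L ≤ r → (p - q) * r ≤ 2 * p * h →
      (2 * ((N * (N + 1) : ℕ) : ℝ)) < (1 / (8 * ((2 * d : ℕ) : ℝ))) ^ r *
        Real.exp ((g : ℝ) ^ 2 * h / (16 * ((2 * d : ℕ) : ℝ))))
    (hE : ∀ e ∈ E, s e ≠ t e) (hN : (univ.filter (fun v => 0 < dg s t E v)).card ≤ N)
    (hdd : ∀ v, dg s t E v = 0 ∨ d ≤ dg s t E v) (hdN : ∀ v, dg s t E v ≤ N)
    (hsp : ∀ R : Finset V, R.card ≤ 2 * L → eIn s t E R ≤ q * R.card) :
    Strat E (fun M B => ∀ v, (lead s t M B v : ℝ) ≤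
      ((p + g + 1 : ℕ) : ℝ) / d * dg s t E v) := by
  have hcol : ∀ v : V, ∃ c : ε → ℕ, (∀ e, c e ≤ N) ∧ ∀ i,
      ((E.filter (fun e => s e = v ∨ t e = v)).filter (fun e => c e = i)).card = 0 ∨
      (d ≤ ((E.filter (fun e => s e = v ∨ t e = v)).filter (fun e => c e = i)).card ∧
      ((E.filter (fun e => s e = v ∨ t e = v)).filter (fun e => c e = i)).card < 2 * d) := by
    intro v
    rcases hdd v with h | h
    · refine ⟨fun _ => 0, fun _ => Nat.zero_le _, fun i => Or.inl ?_⟩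
      unfold dg at h
      rw [card_eq_zero] at h
      rw [h]; simp
    · obtain ⟨c, h1, h2⟩ := exists_colouring hd _ (E.filter (fun e => s e = v ∨ t e = v)) rfl h
      exact ⟨c, fun e => (h1 e).trans (hdN v), h2⟩
  choose c hc1 hc2 using hcol
  set s' : ε → V × Fin (N + 1) := fun e => (s e, ⟨c (s e) e, Nat.lt_succ_of_le (hc1 _ e)⟩) with hs'
  set t' : ε → V × Fin (N + 1) := fun e => (t e, ⟨c (t e) e, Nat.lt_succ_of_le (hc1 _ e)⟩) with ht'
  have hdg : ∀ (X : Finset ε) (v : V) (i : Fin (N + 1)), dg s' t' X (v, i) =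
      ((X.filter (fun e => s e = v ∨ t e = v)).filter (fun e => c v e = i)).card := by
    intro X v i
    unfold dg
    rw [filter_filter]
    congr 1
    ext e
    simp only [mem_filter, hs', ht', Prod.mk.injEq, Fin.ext_iff]
    constructor
    · rintro ⟨h1, ⟨h2, h3⟩ | ⟨h2, h3⟩⟩
      · exact ⟨h1, Or.inl h2, by rw [← h2]; exact h3⟩
      · exact ⟨h1, Or.inr h2, by rw [← h2]; exact h3⟩
    · rintro ⟨h1, h2 | h2, h3⟩
      · exact ⟨h1, Or.inl ⟨h2, by rw [h2]; exact h3⟩⟩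
      · exact ⟨h1, Or.inr ⟨h2, by rw [h2]; exact h3⟩⟩
  have hdsum : ∀ (X : Finset ε) (v : V), dg s t X v = ∑ i : Fin (N + 1), dg s' t' X (v, i) := by
    intro X v
    simp only [hdg]
    unfold dg
    rw [card_eq_sum_card_fiberwise (f := fun e => (⟨c v e, Nat.lt_succ_of_le (hc1 v e)⟩ :
      Fin (N + 1))) (t := univ) (fun e _ => by simp)]
    refine sum_congr rfl fun i _ => ?_
    congr 1
    ext e
    simp only [mem_filter, Fin.ext_iff]
  have hdeg : ∀ v : V × Fin (N + 1), dg s' t' E v = 0 ∨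
      (d ≤ dg s' t' E v ∧ dg s' t' E v < 2 * d) := by
    rintro ⟨v, i⟩
    rw [hdg]
    exact hc2 v i
  have hsp' : ∀ X : Finset (V × Fin (N + 1)), (∀ R ⊆ X, Conn s' t' E R → R.card ≤ 2 * L) →
      eIn s' t' E X ≤ q * X.card := by
    by_contra hcon
    obtain ⟨X, hXL, hX, -⟩ := exists_dense hcon
    have h1 : (X.image Prod.fst).card ≤ X.card := card_image_le
    have h2 := hsp (X.image Prod.fst) (h1.trans hXL)
    have h3 : eIn s' t' E X ≤ eIn s t E (X.image Prod.fst) := by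
      unfold eIn
      refine card_le_card fun e he => ?_
      rw [mem_filter] at he ⊢
      exact ⟨he.1, mem_image.2 ⟨_, he.2.1, rfl⟩, mem_image.2 ⟨_, he.2.2, rfl⟩⟩
    have h4 : q * (X.image Prod.fst).card ≤ q * X.card := Nat.mul_le_mul_left _ h1
    omega
  have hPar : Par s' t' p q g (2 * d) L (N * (N + 1)) E := by
    refine ⟨fun e he h => hE e he (by
      simp only [hs', ht', Prod.mk.injEq] at h
      exact h.1), by omega, fun v => by rcases hdeg v with h | h <;> omega, by omega, hL, hpq,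
      hsp', ?_, num⟩
    have : univ.filter (fun v => 0 < dg s' t' E v) ⊆
        (univ.filter (fun v => 0 < dg s t E v)) ×ˢ (univ : Finset (Fin (N + 1))) := by
      rintro ⟨v, i⟩ hv
      rw [mem_filter] at hv
      rw [mem_product, mem_filter]
      refine ⟨⟨mem_univ _, ?_⟩, mem_univ _⟩
      rw [hdsum]
      exact hv.2.trans_le (single_le_sum (f := fun i => dg s' t' E (v, i))
        (fun _ _ => Nat.zero_le _) (mem_univ i))
    refine (card_le_card this).trans ?_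
    rw [card_product, card_univ, Fintype.card_fin]
    exact Nat.mul_le_mul_right _ hN
  refine (strat_T2 hPar).mono fun M B hM hB hMB hEMB h v => ?_
  have hlead : (lead s t M B v : ℝ) = ∑ i : Fin (N + 1), (lead s' t' M B (v, i) : ℝ) := by
    unfold lead
    rw [hdsum M, hdsum B]
    push_cast
    rw [sum_sub_distrib]
  rw [hlead, hdsum E]
  push_cast
  rw [mul_sum]
  refine sum_le_sum fun i _ => ?_
  have hd0 : (0 : ℝ) < d := by exact_mod_cast hd
  rcases hdeg (v, i) with h0 | h1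
  · have hb : dg s' t' B (v, i) = 0 := by
      have := dg_mono (s := s') (t := t') hB (v, i); omega
    have hm : dg s' t' M (v, i) = 0 := by
      have := dg_mono (s := s') (t := t') hM (v, i); omega
    unfold lead
    rw [hb, hm, h0]
    simp
  · have h2 : (lead s' t' M B (v, i) : ℝ) ≤ ((p + g + 1 : ℕ) : ℝ) := by
      have h2' : lead s' t' M B (v, i) ≤ ((p + g + 1 : ℕ) : ℤ) := by
        push_cast; exact h (v, i)
      exact_mod_cast h2'
    have h3 : (d : ℝ) ≤ dg s' t' E (v, i) := by exact_mod_cast h1.1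
    have h4 : ((p + g + 1 : ℕ) : ℝ) ≤ ((p + g + 1 : ℕ) : ℝ) / d * dg s' t' E (v, i) := by
      rw [div_mul_eq_mul_div, le_div_iff₀ hd0]
      exact mul_le_mul_of_nonneg_left h3 (by positivity)
    push_cast at h2 h4 ⊢
    linarith

/-- the numerical condition -/
theorem num_sparse {ε : ℝ} (h0 : 0 < ε) {d q p g L N : ℕ} (hd : 1 ≤ d) (hN : 1 ≤ N)
    (hL : 2 ≤ L) (hpq : ε * d / 8 ≤ ((p - q : ℕ) : ℝ)) (hp : (p : ℝ) ≤ 2 * d) (hp0 : 0 < p)
    (hg : ε * d / 8 ≤ g) (hlog : Real.log (16 * d) + 1 < ε ^ 3 * d / 131072)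
    (hLN : Real.log N ≤ ε ^ 3 * d / 524288 * L) (r h : ℕ)
    (hr : L ≤ r) (hrh : (p - q) * r ≤ 2 * p * h) :
    (2 * ((N * (N + 1) : ℕ) : ℝ)) < (1 / (8 * ((2 * d : ℕ) : ℝ))) ^ r *
        Real.exp ((g : ℝ) ^ 2 * h / (16 * ((2 * d : ℕ) : ℝ))) := by
  have hd' : (1 : ℝ) ≤ d := by exact_mod_cast hd
  have hN' : (1 : ℝ) ≤ N := by exact_mod_cast hN
  have hrL : (L : ℝ) ≤ r := by exact_mod_cast hr
  have hL2 : (2 : ℝ) ≤ L := by exact_mod_cast hL
  have hrh' : ((p - q : ℕ) : ℝ) * r ≤ 2 * p * h := by exact_mod_cast hrh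
  have hr0 : (0 : ℝ) ≤ r := by positivity
  have hh0 : (0 : ℝ) ≤ h := by positivity
  -- `h ≥ ε r / 32`
  have h1 : ε * r / 32 ≤ h := by
    have h2 : ε * d / 8 * r ≤ 2 * (2 * d) * h :=
      calc ε * d / 8 * r ≤ ((p - q : ℕ) : ℝ) * r := mul_le_mul_of_nonneg_right hpq hr0
        _ ≤ 2 * p * h := hrh'
        _ ≤ 2 * (2 * d) * h := by nlinarith
    have h3 : (d : ℝ) * (ε * r / 32) ≤ d * h := by nlinarith
    exact le_of_mul_le_mul_left h3 (by linarith)
  -- the left side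
  have hleft : (2 * ((N * (N + 1) : ℕ) : ℝ)) ≤ Real.exp (2 * Real.log N + 2) := by
    have e1 : Real.exp (2 * Real.log N + 2) = N * N * (Real.exp 1 * Real.exp 1) := by
      rw [Real.exp_add, ← Real.exp_add 1 1, two_mul, Real.exp_add,
        Real.exp_log (by linarith)]
      norm_num
    rw [e1]
    push_cast
    have e2 := Real.exp_one_gt_d9
    have e3 : (4 : ℝ) ≤ Real.exp 1 * Real.exp 1 := by nlinarith
    have e4 : (N : ℝ) * (N + 1) ≤ 2 * (N * N) := by nlinarith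
    have e5 : (0 : ℝ) ≤ N * N := by positivity
    nlinarith [mul_le_mul_of_nonneg_left e3 e5]
  refine hleft.trans_lt ?_
  have hpow : (1 / (8 * ((2 * d : ℕ) : ℝ))) ^ r = Real.exp (-(r * Real.log (16 * d))) := by
    have h10 : (8 * ((2 * d : ℕ) : ℝ)) = 16 * d := by push_cast; ring
    rw [h10, Real.exp_neg, one_div, inv_pow]
    congr 1
    rw [Real.exp_nat_mul, Real.exp_log (by positivity)]
  rw [hpow, ← Real.exp_add]
  refine Real.exp_lt_exp.2 ?_
  have hg2 : ε ^ 3 * d / 65536 * r ≤ (g : ℝ) ^ 2 * h / (16 * ((2 * d : ℕ) : ℝ)) := by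
    rw [le_div_iff₀ (by positivity)]
    have h11 : (ε * d / 8) ^ 2 ≤ (g : ℝ) ^ 2 := by
      have : 0 ≤ ε * d / 8 := by positivity
      nlinarith
    have h12 : (ε * d / 8) ^ 2 * (ε * r / 32) ≤ (g : ℝ) ^ 2 * h :=
      mul_le_mul h11 h1 (by positivity) (by positivity)
    calc ε ^ 3 * d / 65536 * r * (16 * ((2 * d : ℕ) : ℝ)) =
          (ε * d / 8) ^ 2 * (ε * r / 32) := by
          push_cast; ring
      _ ≤ _ := h12
  have h13 : (r : ℝ) * (Real.log (16 * d) + 1) < r * (ε ^ 3 * d / 131072) :=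
    mul_lt_mul_of_pos_left hlog (by linarith)
  have h14 : Real.log N ≤ ε ^ 3 * d / 524288 * r :=
    hLN.trans (mul_le_mul_of_nonneg_left hrL (by positivity))
  have h15 : 0 ≤ ε ^ 3 * d * r := by positivity
  have h16 : (2 : ℝ) ≤ r := hL2.trans hrL
  nlinarith [hg2, h13, h14, h15, h16]

open Filter in
theorem asymp_sparse {ε : ℝ} (h0 : 0 < ε) : ∀ᶠ d : ℕ in atTop,
    Real.log (16 * d) + 1 < ε ^ 3 * d / 131072 ∧ 8 / ε ≤ d ∧ 8 ≤ d := by
  have E3 : ∀ᶠ y : ℝ in atTop, ‖Real.log y‖ ≤ (ε ^ 3 / 262144) * ‖id y‖ :=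
    Real.isLittleO_log_id_atTop.bound (by positivity)
  have E4 : ∀ᶠ y : ℝ in atTop, (Real.log 16 + 1 + 1) / (ε ^ 3 / 262144) ≤ y :=
    eventually_ge_atTop _
  have E5 : ∀ᶠ y : ℝ in atTop, 8 / ε ≤ y := eventually_ge_atTop _
  have hcast := tendsto_natCast_atTop_atTop (R := ℝ)
  filter_upwards [hcast.eventually E3, hcast.eventually E4, hcast.eventually E5,
    eventually_ge_atTop 8] with d a1 a2 a3 a4
  refine ⟨?_, a3, a4⟩
  have hd : (8 : ℝ) ≤ d := by exact_mod_cast a4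
  rw [Real.norm_of_nonneg (Real.log_nonneg (by linarith)), id,
    Real.norm_of_nonneg (by linarith)] at a1
  rw [div_le_iff₀ (by positivity)] at a2
  rw [Real.log_mul (by norm_num) (by linarith)]
  linarith

end Pool.Agent.helper36.MD
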