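import Pool.Agent.helper36.MD.Game

/-!
Positional games: invariants for the second player, composition of boards.
-/

set_option autoImplicit false
open Finset

namespace Pool.Agent.helper36.MD

variable {ε : Type} [DecidableEq ε]

/-- an invariant (Breaker to move) by which Maker achieves `goal` as the second player; extra
moves of Maker do no harm -/
def Strat (E : Finset ε) (goal : Finset ε → Finset ε → Prop) : Prop :=
  ∃ I : Finset ε → Finset ε → Prop, I ∅ ∅ ∧
    (∀ M B, I M B → M ⊆ E ∧ B ⊆ E ∧ Disjoint M B) ∧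
    (∀ M B, I M B → ∀ e ∈ E, e ∉ M → e ∉ B → I (insert e M) B) ∧
    (∀ M B, I M B → ∀ f ∈ E, f ∉ M → f ∉ B →
      (∃ e ∈ E, e ∉ M ∧ e ∉ insert f B ∧ I (insert e M) (insert f B)) ∨
      (E ⊆ M ∪ insert f B ∧ I M (insert f B))) ∧
    (∀ M B, I M B → E ⊆ M ∪ B → goal M B)

theorem Strat.mono {E : Finset ε} {goal goal' : Finset ε → Finset ε → Prop}
    (h : Strat E goal) (hg : ∀ M B, M ⊆ E → B ⊆ E → Disjoint M B → E ⊆ M ∪ B → goal M B →
      goal' M B) : Strat E goal' := by
  obtain ⟨I, h0, h1, h2, h3, h4⟩ := h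
  refine ⟨I, h0, h1, h2, h3, fun M B hI hE => ?_⟩
  obtain ⟨a, b, c⟩ := h1 M B hI
  exact hg M B a b c hE (h4 M B hI hE)

theorem Strat.union {E₁ E₂ : Finset ε} (hd : Disjoint E₁ E₂)
    {g₁ g₂ : Finset ε → Finset ε → Prop} (h₁ : Strat E₁ g₁) (h₂ : Strat E₂ g₂) :
    Strat (E₁ ∪ E₂) (fun M B => g₁ (M ∩ E₁) (B ∩ E₁) ∧ g₂ (M ∩ E₂) (B ∩ E₂)) := by
  obtain ⟨I₁, a0, a1, a2, a3, a4⟩ := h₁
  obtain ⟨I₂, b0, b1, b2, b3, b4⟩ := h₂
  have hni : ∀ {e}, e ∈ E₁ → e ∉ E₂ := fun h1 h2 => disjoint_left.1 hd h1 h2
  have hni' : ∀ {e}, e ∈ E₂ → e ∉ E₁ := fun h2 h1 => disjoint_left.1 hd h1 h2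
  have ins1 : ∀ (X : Finset ε) {e}, e ∈ E₁ → insert e X ∩ E₁ = insert e (X ∩ E₁) :=
    fun X e he => insert_inter_of_mem he
  have ins2 : ∀ (X : Finset ε) {e}, e ∈ E₂ → insert e X ∩ E₂ = insert e (X ∩ E₂) :=
    fun X e he => insert_inter_of_mem he
  have ins1' : ∀ (X : Finset ε) {e}, e ∈ E₂ → insert e X ∩ E₁ = X ∩ E₁ :=
    fun X e he => insert_inter_of_notMem (hni' he)
  have ins2' : ∀ (X : Finset ε) {e}, e ∈ E₁ → insert e X ∩ E₂ = X ∩ E₂ :=
    fun X e he => insert_inter_of_notMem (hni he)
  have sub1 : ∀ {M B : Finset ε}, E₁ ∪ E₂ ⊆ M ∪ B → E₁ ⊆ M ∩ E₁ ∪ B ∩ E₁ := by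
    intro M B h e he
    have := h (mem_union_left _ he)
    simp only [mem_union, mem_inter] at this ⊢
    tauto
  have sub2 : ∀ {M B : Finset ε}, E₁ ∪ E₂ ⊆ M ∪ B → E₂ ⊆ M ∩ E₂ ∪ B ∩ E₂ := by
    intro M B h e he
    have := h (mem_union_right _ he)
    simp only [mem_union, mem_inter] at this ⊢
    tauto
  refine ⟨fun M B => M ⊆ E₁ ∪ E₂ ∧ B ⊆ E₁ ∪ E₂ ∧ Disjoint M B ∧ I₁ (M ∩ E₁) (B ∩ E₁) ∧
    I₂ (M ∩ E₂) (B ∩ E₂), ?_, ?_, ?_, ?_, ?_⟩
  · refine ⟨empty_subset _, empty_subset _, disjoint_empty_left _, ?_, ?_⟩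
    · simpa using a0
    · simpa using b0
  · rintro M B ⟨h1, h2, h3, -, -⟩
    exact ⟨h1, h2, h3⟩
  · rintro M B ⟨h1, h2, h3, h4, h5⟩ e he heM heB
    refine ⟨insert_subset he h1, h2, ?_, ?_⟩
    · exact disjoint_insert_left.2 ⟨heB, h3⟩
    · rcases mem_union.1 he with he1 | he2
      · rw [ins1 M he1, ins2' M he1]
        exact ⟨a2 _ _ h4 e he1 (by simp [heM]) (by simp [heB]), h5⟩
      · rw [ins2 M he2, ins1' M he2]
        exact ⟨h4, b2 _ _ h5 e he2 (by simp [heM]) (by simp [heB])⟩
  · rintro M B ⟨h1, h2, h3, h4, h5⟩ f hf hfM hfB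
    have key : ∀ e ∈ E₁ ∪ E₂, e ∉ M → e ∉ insert f B →
        I₁ (insert e M ∩ E₁) (insert f B ∩ E₁) → I₂ (insert e M ∩ E₂) (insert f B ∩ E₂) →
        (insert e M ⊆ E₁ ∪ E₂ ∧ insert f B ⊆ E₁ ∪ E₂ ∧ Disjoint (insert e M) (insert f B) ∧
          I₁ (insert e M ∩ E₁) (insert f B ∩ E₁) ∧ I₂ (insert e M ∩ E₂) (insert f B ∩ E₂)) := by
      intro e he heM heB i1 i2
      refine ⟨insert_subset he h1, insert_subset hf h2, ?_, i1, i2⟩
      rw [disjoint_insert_left]
      exact ⟨heB, disjoint_insert_right.2 ⟨hfM, h3⟩⟩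
    have keyT : Disjoint M (insert f B) := disjoint_insert_right.2 ⟨hfM, h3⟩
    rcases mem_union.1 hf with hf1 | hf2
    · rcases a3 _ _ h4 f hf1 (by simp [hfM]) (by simp [hfB]) with ⟨e, he, heM, heB, hI⟩ | ⟨hE, hI⟩
      · left
        have heM' : e ∉ M := fun h => heM (mem_inter.2 ⟨h, he⟩)
        have heB' : e ∉ insert f B := by
          intro h
          rcases mem_insert.1 h with h | h
          · exact heB (by rw [h]; exact mem_insert_self _ _)
          · exact heB (mem_insert_of_mem (mem_inter.2 ⟨h, he⟩))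
        refine ⟨e, mem_union_left _ he, heM', heB', key e (mem_union_left _ he) heM' heB' ?_ ?_⟩
        · rw [ins1 M he, ins1 B hf1]; exact hI
        · rw [ins2' M he, ins2' B hf1]; exact h5
      · by_cases hfree : ∃ e ∈ E₂, e ∉ M ∧ e ∉ B
        · obtain ⟨e, he, heM, heB⟩ := hfree
          left
          have heB' : e ∉ insert f B := by
            intro h
            rcases mem_insert.1 h with h | h
            · rw [h] at he; exact hni hf1 he
            · exact heB h
          refine ⟨e, mem_union_right _ he, heM, heB', key e (mem_union_right _ he) heM heB' ?_ ?_⟩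
          · rw [ins1' M he, ins1 B hf1]; exact hI
          · rw [ins2 M he, ins2' B hf1]
            exact b2 _ _ h5 e he (by simp [heM]) (by simp [heB])
        · right
          push Not at hfree
          refine ⟨?_, h1, insert_subset hf h2, keyT, ?_, ?_⟩
          · intro e he
            rcases mem_union.1 he with he1 | he2
            · have := hE he1
              simp only [mem_union, mem_inter, mem_insert] at this ⊢
              tauto
            · have := hfree e he2
              simp only [mem_union, mem_insert]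
              tauto
          · rw [ins1 B hf1]; exact hI
          · rw [ins2' B hf1]; exact h5
    · rcases b3 _ _ h5 f hf2 (by simp [hfM]) (by simp [hfB]) with ⟨e, he, heM, heB, hI⟩ | ⟨hE, hI⟩
      · left
        have heM' : e ∉ M := fun h => heM (mem_inter.2 ⟨h, he⟩)
        have heB' : e ∉ insert f B := by
          intro h
          rcases mem_insert.1 h with h | h
          · exact heB (by rw [h]; exact mem_insert_self _ _)
          · exact heB (mem_insert_of_mem (mem_inter.2 ⟨h, he⟩))
        refine ⟨e, mem_union_right _ he, heM', heB', key e (mem_union_right _ he) heM' heB' ?_ ?_⟩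
        · rw [ins1' M he, ins1' B hf2]; exact h4
        · rw [ins2 M he, ins2 B hf2]; exact hI
      · by_cases hfree : ∃ e ∈ E₁, e ∉ M ∧ e ∉ B
        · obtain ⟨e, he, heM, heB⟩ := hfree
          left
          have heB' : e ∉ insert f B := by
            intro h
            rcases mem_insert.1 h with h | h
            · rw [h] at he; exact hni he hf2
            · exact heB h
          refine ⟨e, mem_union_left _ he, heM, heB', key e (mem_union_left _ he) heM heB' ?_ ?_⟩
          · rw [ins1 M he, ins1' B hf2]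
            exact a2 _ _ h4 e he (by simp [heM]) (by simp [heB])
          · rw [ins2' M he, ins2 B hf2]; exact hI
        · right
          push Not at hfree
          refine ⟨?_, h1, insert_subset hf h2, keyT, ?_, ?_⟩
          · intro e he
            rcases mem_union.1 he with he1 | he2
            · have := hfree e he1
              simp only [mem_union, mem_insert]
              tauto
            · have := hE he2
              simp only [mem_union, mem_inter, mem_insert] at this ⊢
              tauto
          · rw [ins1' B hf2]; exact h4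
          · rw [ins2 B hf2]; exact hI
  · rintro M B ⟨h1, h2, h3, h4, h5⟩ hE
    exact ⟨a4 _ _ h4 (sub1 hE), b4 _ _ h5 (sub2 hE)⟩

/-- the second player of the invariant wins the game in which Maker starts -/
theorem Strat.wins {E : Finset ε} {goal : Finset ε → Finset ε → Prop} (h : Strat E goal)
    {goal' : Finset ε → Prop} (hg : ∀ M B, M ⊆ E → B ⊆ E → Disjoint M B → E ⊆ M ∪ B →
      goal M B → goal' M) : MakerWins E goal' E.card true ∅ ∅ := by
  obtain ⟨I, h0, h1, h2, h3, h4⟩ := h
  have fin : ∀ M B, I M B → E ⊆ M ∪ B → goal' M := fun M B hI hE => by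
    obtain ⟨a, b, c⟩ := h1 M B hI
    exact hg M B a b c hE (h4 M B hI hE)
  have cardE : ∀ M B, M ⊆ E → B ⊆ E → (E \ (M ∪ B)).card = 0 → E ⊆ M ∪ B := by
    intro M B _ _ hc
    exact sdiff_eq_empty_iff_subset.1 (card_eq_zero.1 hc)
  -- Breaker to move
  have main : ∀ k, ∀ M B, I M B → (E \ (M ∪ B)).card = k → MakerWins E goal' k false M B := by
    intro k
    induction k using Nat.strong_induction_on with
    | _ k ih =>
      intro M B hI hk
      obtain ⟨a, b, c⟩ := h1 M B hI
      match k, hk with
      | 0, hk => exact fin M B hI (cardE M B a b hk)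
      | (k + 1), hk =>
        intro f hf
        rw [mem_sdiff, mem_union, not_or] at hf
        obtain ⟨hfE, hfM, hfB⟩ := hf
        have hk' : (E \ (M ∪ insert f B)).card = k := by
          have : E \ (M ∪ insert f B) = (E \ (M ∪ B)).erase f := by
            ext e
            simp only [mem_sdiff, mem_union, mem_insert, mem_erase]
            tauto
          rw [this, card_erase_of_mem (by simp [hfE, hfM, hfB]), hk]
          rfl
        rcases h3 M B hI f hfE hfM hfB with ⟨e, he, heM, heB, hI'⟩ | ⟨hE, hI'⟩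
        · match k, hk' with
          | 0, hk' =>
            exfalso
            have : e ∈ E \ (M ∪ insert f B) := by
              rw [mem_sdiff, mem_union, not_or]; exact ⟨he, heM, heB⟩
            rw [card_eq_zero.1 hk'] at this
            simp at this
          | (k + 1), hk' =>
            refine ⟨e, ?_, ih k (by omega) _ _ hI' ?_⟩
            · rw [mem_sdiff, mem_union, not_or]; exact ⟨he, heM, heB⟩
            · have : E \ (insert e M ∪ insert f B) = (E \ (M ∪ insert f B)).erase e := by
                ext x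
                simp only [mem_sdiff, mem_union, mem_insert, mem_erase]
                tauto
              rw [this, card_erase_of_mem (by
                rw [mem_sdiff, mem_union, not_or]; exact ⟨he, heM, heB⟩), hk']
              rfl
        · have h0' : k = 0 := by
            rw [← hk', card_eq_zero, sdiff_eq_empty_iff_subset]; exact hE
          subst h0'
          exact fin M _ hI' hE
  match hE : E.card with
  | 0 => exact fin ∅ ∅ h0 (by rw [card_eq_zero.1 hE]; simp)
  | (k + 1) =>
    obtain ⟨e, he⟩ : E.Nonempty := card_pos.1 (by omega)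
    refine ⟨e, by simpa using he, main k _ _ (h2 ∅ ∅ h0 e he (by simp) (by simp)) ?_⟩
    have : E \ (insert e ∅ ∪ ∅) = E.erase e := by
      ext x
      simp only [mem_sdiff, mem_union, mem_insert, mem_erase, notMem_empty, or_false]
      tauto
    rw [this, card_erase_of_mem he, hE]
    rfl

end Pool.Agent.helper36.MD
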