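import Pool.Agent.helper36.MD.Strat
import Pool.Agent.helper36.MD.Potential
import Pool.Agent.helper36.MD.Graph

/-!
The classical case: all degrees are large compared with the logarithm of the number of
vertices.
-/

set_option autoImplicit false
set_option linter.unusedSectionVars false
set_option linter.unusedVariables false
open Finset

namespace Pool.Agent.helper36.MD

variable {ε : Type} [DecidableEq ε] {V : Type} [DecidableEq V] {s t : ε → V}

/-- a final position: degrees add up -/
theorem dg_split {E M B : Finset ε} (h1 : M ⊆ E) (h2 : B ⊆ E) (h3 : Disjoint M B)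
    (h4 : E ⊆ M ∪ B) (v : V) : dg s t M v + dg s t B v = dg s t E v := by
  rw [← dg_union h3]
  congr 1
  exact (union_subset h1 h2).antisymm h4

theorem strat_T1 [Fintype V] {E : Finset ε} (N : ℕ)
    (hN : (univ.filter (fun v => 0 < dg s t E v)).card ≤ N) (η : ℝ) (h0 : 0 < η) (h1 : η ≤ 1)
    (d : ℕ) (hd : ∀ v, dg s t E v = 0 ∨ d ≤ dg s t E v)
    (hdN : 8 * Real.log (2 * N) ≤ η ^ 2 * d) :
    Strat E (fun M B => ∀ v, (lead s t M B v : ℝ) ≤ η * dg s t E v) := by
  classical
  set T : Finset V := univ.filter (fun v => 0 < dg s t E v) with hT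
  set lam : ℝ := η / 4 with hlam
  set c : V → ℝ := fun _ => 1 with hc
  set a : V → ε → ℝ := fun v e => if s e = v ∨ t e = v then lam else 0 with ha
  have hc0 : ∀ i ∈ T, 0 ≤ c i := fun i _ => zero_le_one
  have ha0 : ∀ v e, 0 ≤ a v e ∧ a v e ≤ 1 / 2 := by
    intro v e
    simp only [ha]
    split_ifs
    · constructor <;> linarith
    · norm_num
  have ha1 : ∀ i ∈ T, ∀ e, 0 ≤ a i e ∧ a i e ≤ 1 := fun v _ e =>
    ⟨(ha0 v e).1, by linarith [(ha0 v e).2]⟩
  set Φ : ℝ := 2 * N with hΦ
  have hfin : ∀ M B : Finset ε, M ⊆ E → B ⊆ E → Disjoint M B → E ⊆ M ∪ B →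
      pot T c a M B ≤ Φ → ∀ v, (lead s t M B v : ℝ) ≤ η * dg s t E v := by
    intro M B hM hB hMB hE hpot v
    have hsplit := dg_split (s := s) (t := t) hM hB hMB hE v
    by_cases hv : 0 < dg s t E v
    · have hvT : v ∈ T := by simp [hT, hv]
      have hd' : (d : ℝ) ≤ dg s t E v := by
        rcases hd v with h | h
        · omega
        · exact_mod_cast h
      have hNpos : (1 : ℝ) ≤ N := by
        have : 0 < T.card := card_pos.2 ⟨v, hvT⟩
        have : 1 ≤ N := by omega
        exact_mod_cast this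
      have hw := wt_le_pot hc0 ha1 M B hvT
      unfold wt at hw
      have hprod := prod_ge_exp (M := M) (B := B) (a v) (fun e => (ha0 v e).1)
        (fun e => (ha0 v e).2)
      have hsum : ∀ X : Finset ε, ∑ e ∈ X, a v e = lam * dg s t X v := by
        intro X
        simp only [ha, dg]
        rw [← sum_filter, sum_const, nsmul_eq_mul]
        ring
      have hsum2 : ∀ X : Finset ε, ∑ e ∈ X, a v e ^ 2 = lam ^ 2 * dg s t X v := by
        intro X
        simp only [ha, dg]
        have : ∀ e : ε, (if s e = v ∨ t e = v then lam else 0) ^ 2 =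
            if s e = v ∨ t e = v then lam ^ 2 else 0 := by
          intro e; split_ifs <;> simp
        simp only [this]
        rw [← sum_filter, sum_const, nsmul_eq_mul]
        ring
      rw [hsum, hsum, hsum2, hsum2] at hprod
      have h5 : Real.exp (lam * (dg s t B v : ℝ) - lam * dg s t M v -
          2 * (lam ^ 2 * dg s t B v + lam ^ 2 * dg s t M v)) ≤ 2 * N := by
        calc _ ≤ _ := hprod
          _ ≤ Φ := by
            refine le_trans ?_ (hw.trans hpot)
            simp only [hc]
            rw [one_mul]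
      have h6 : lam * (dg s t B v : ℝ) - lam * dg s t M v -
          2 * (lam ^ 2 * dg s t B v + lam ^ 2 * dg s t M v) ≤ Real.log (2 * N) := by
        rw [Real.le_log_iff_exp_le (by linarith)]
        exact h5
      have h7 : ((dg s t M v : ℝ) + dg s t B v) = dg s t E v := by exact_mod_cast hsplit
      have h8 : (lead s t M B v : ℝ) = (dg s t B v : ℝ) - dg s t M v := by
        unfold lead; push_cast; ring
      rw [h8]
      have h9 : lam * ((dg s t B v : ℝ) - dg s t M v) ≤
          Real.log (2 * N) + 2 * lam ^ 2 * dg s t E v := by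
        rw [← h7]; nlinarith [h6]
      rw [hlam] at h9
      have h10 : 8 * Real.log (2 * N) ≤ η ^ 2 * dg s t E v :=
        hdN.trans (mul_le_mul_of_nonneg_left hd' (sq_nonneg η))
      have h11 : η * ((dg s t B v : ℝ) - dg s t M v) ≤ η * (η * dg s t E v) := by
        nlinarith [h9, h10]
      exact le_of_mul_le_mul_left h11 h0
    · have h0' : dg s t E v = 0 := by omega
      have hb : dg s t B v = 0 := by omega
      have hm : dg s t M v = 0 := by omega
      unfold lead
      rw [hb, hm, h0']
      simp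
  refine ⟨fun M B => M ⊆ E ∧ B ⊆ E ∧ Disjoint M B ∧ PotInv T c a Φ (E \ (M ∪ B)) M B,
    ?_, ?_, ?_, ?_, ?_⟩
  · refine ⟨empty_subset _, empty_subset _, disjoint_empty_left _,
      PotInv.init hc0 ha1 _ ?_⟩
    simp only [hc, sum_const, nsmul_eq_mul, mul_one, hΦ]
    have : (T.card : ℝ) ≤ N := by exact_mod_cast hN
    linarith
  · rintro M B ⟨h1, h2, h3, -⟩
    exact ⟨h1, h2, h3⟩
  · rintro M B ⟨h1, h2, h3, h4⟩ e he heM heB
    refine ⟨insert_subset he h1, h2, disjoint_insert_left.2 ⟨heB, h3⟩, ?_, ?_⟩
    · rw [pot_insert_M heM]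
      linarith [h4.1, val_nonneg hc0 ha1 M B e]
    · intro f hf
      rw [pot_insert_M heM]
      have hf' : f ∈ E \ (M ∪ B) := by
        simp only [mem_sdiff, mem_union, mem_insert] at hf ⊢
        tauto
      linarith [h4.2 f hf', val_nonneg hc0 ha1 M B e,
        val_insert_M_le hc0 ha1 (B := B) heM f]
  · rintro M B ⟨h1, h2, h3, h4⟩ f hf hfM hfB
    have hfU : f ∈ E \ (M ∪ B) := by
      rw [mem_sdiff, mem_union, not_or]; exact ⟨hf, hfM, hfB⟩
    have hd' : Disjoint M (insert f B) := disjoint_insert_right.2 ⟨hfM, h3⟩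
    obtain ⟨hp, hr⟩ := h4.reply hc0 ha1 (U' := E \ (M ∪ insert f B)) hfU hfB
      (fun e he => by
        rw [mem_sdiff, mem_union, not_or] at he
        exact he.2.1)
    by_cases hne : (E \ (M ∪ insert f B)).Nonempty
    · left
      obtain ⟨e, he, hI⟩ := hr hne
      rw [mem_sdiff, mem_union, not_or] at he
      refine ⟨e, he.1, he.2.1, he.2.2, insert_subset he.1 h1, insert_subset hf h2,
        disjoint_insert_left.2 ⟨he.2.2, hd'⟩, hI.mono ?_⟩
      intro x hx
      simp only [mem_sdiff, mem_union, mem_insert] at hx ⊢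
      tauto
    · right
      rw [not_nonempty_iff_eq_empty] at hne
      refine ⟨sdiff_eq_empty_iff_subset.1 hne, h1, insert_subset hf h2, hd', hp, ?_⟩
      rw [hne]
      simp
  · rintro M B ⟨h1, h2, h3, h4⟩ hE
    exact hfin M B h1 h2 h3 hE h4.1

end Pool.Agent.helper36.MD
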