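import Pool.Agent.helper36.MD.Carve

/-!
The induction over the height of the tower of exponentials.
-/

set_option autoImplicit false
set_option linter.unusedSectionVars false
set_option linter.unusedVariables false
open Finset

namespace Pool.Agent.helper36.MD

theorem PP.mono {N d : ℕ} {η η' : ℝ} (h : PP N d η) (hη : η ≤ η') : PP N d η' := by
  intro ε V _ _ _ s t E h1 h2 h3 h4
  refine (h ε V s t E h1 h2 h3 h4).mono fun M B _ _ _ _ h5 v => ?_
  refine (h5 v).trans ?_
  exact mul_le_mul_of_nonneg_right hη (by positivity)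

theorem le_iterate_exp (j : ℕ) (x : ℝ) : x ≤ Real.exp^[j] x := by
  induction j with
  | zero => simp
  | succ j ih =>
    rw [Function.iterate_succ_apply']
    have := Real.add_one_le_exp (Real.exp^[j] x)
    linarith

/-- the numerical condition of the step -/
theorem num_step {d q g L N : ℕ} {δ X : ℝ} (hδ : 0 < δ) (hd : 1 ≤ d) (hL : 6 ≤ L)
    (hq1 : 1 ≤ q) (hg : δ * d ≤ g) (hlog : Real.log (16 * d) ≤ δ ^ 2 * d / 256)
    (hbig : 1280 ≤ δ ^ 2 * d) (hX : X < 2 * (L + 1)) (hN : (N : ℝ) ≤ Real.exp X) (r h : ℕ)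
    (hr : L ≤ r) (hrh : (2 * q - q) * r ≤ 2 * (2 * q) * h) :
    (2 * ((N * (N + 1) : ℕ) : ℝ)) < (1 / (8 * ((2 * d : ℕ) : ℝ))) ^ r *
        Real.exp ((g : ℝ) ^ 2 * h / (16 * ((2 * d : ℕ) : ℝ))) := by
  have hd' : (1 : ℝ) ≤ d := by exact_mod_cast hd
  have hrL : (L : ℝ) ≤ r := by exact_mod_cast hr
  have hr6 : (6 : ℝ) ≤ r := by exact_mod_cast (hL.trans hr)
  have h4 : r ≤ 4 * h := by
    have h1 : q * r ≤ q * (4 * h) := by
      have : 2 * q - q = q := by omega
      rw [this] at hrh
      calc q * r ≤ 2 * (2 * q) * h := hrh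
        _ = q * (4 * h) := by ring
    exact Nat.le_of_mul_le_mul_left h1 (by omega)
  have h4' : (r : ℝ) ≤ 4 * h := by exact_mod_cast h4
  -- the left side
  have hN0 : (0 : ℝ) ≤ N := by positivity
  have hNb : (N : ℝ) ≤ Real.exp (2 * r + 2) := by
    refine hN.trans (Real.exp_le_exp.2 ?_)
    linarith
  have h1e : (1 : ℝ) ≤ Real.exp (2 * r + 2) := by
    rw [← Real.exp_zero]
    exact Real.exp_le_exp.2 (by linarith)
  have hleft : (2 * ((N * (N + 1) : ℕ) : ℝ)) ≤ 4 * Real.exp (4 * r + 4) := by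
    push_cast
    have h5 : (N : ℝ) * (N + 1) ≤ Real.exp (2 * r + 2) * (2 * Real.exp (2 * r + 2)) :=
      mul_le_mul hNb (by linarith) (by linarith) (Real.exp_pos _).le
    have h6 : Real.exp (2 * r + 2) * Real.exp (2 * r + 2) = Real.exp (4 * r + 4) := by
      rw [← Real.exp_add]; congr 1; ring
    nlinarith [h5, h6]
  have he : (4 : ℝ) < Real.exp 2 := by
    have h7 := Real.exp_one_gt_d9
    have h8 : Real.exp 2 = Real.exp 1 * Real.exp 1 := by
      rw [← Real.exp_add]; norm_num
    rw [h8]
    nlinarith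
  have hleft2 : (2 * ((N * (N + 1) : ℕ) : ℝ)) < Real.exp (4 * r + 6) := by
    have h9 : Real.exp (4 * (r : ℝ) + 6) = Real.exp 2 * Real.exp (4 * r + 4) := by
      rw [← Real.exp_add]; congr 1; ring
    rw [h9]
    have := Real.exp_pos (4 * (r : ℝ) + 4)
    nlinarith
  refine hleft2.trans_le ?_
  -- the right side
  have hpow : (1 / (8 * ((2 * d : ℕ) : ℝ))) ^ r = Real.exp (-(r * Real.log (16 * d))) := by
    have h10 : (8 * ((2 * d : ℕ) : ℝ)) = 16 * d := by push_cast; ring
    rw [h10, Real.exp_neg, one_div, inv_pow]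
    congr 1
    rw [Real.exp_nat_mul, Real.exp_log (by positivity)]
  rw [hpow, ← Real.exp_add]
  refine Real.exp_le_exp.2 ?_
  have hg2 : δ ^ 2 * d / 128 * r ≤ (g : ℝ) ^ 2 * h / (16 * ((2 * d : ℕ) : ℝ)) := by
    rw [le_div_iff₀ (by positivity)]
    have h11 : (δ * d) ^ 2 ≤ (g : ℝ) ^ 2 := by
      have : 0 ≤ δ * d := by positivity
      nlinarith
    have h12 : (δ * d) ^ 2 * (r / 4) ≤ (g : ℝ) ^ 2 * h := by
      refine mul_le_mul h11 (by linarith) (by positivity) (by positivity)
    calc δ ^ 2 * d / 128 * r * (16 * ((2 * d : ℕ) : ℝ)) = (δ * d) ^ 2 * (r / 4) := by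
          push_cast; ring
      _ ≤ _ := h12
  have h13 : (r : ℝ) * Real.log (16 * d) ≤ r * (δ ^ 2 * d / 256) :=
    mul_le_mul_of_nonneg_left hlog (by linarith)
  have h14 : (r : ℝ) * 1280 ≤ r * (δ ^ 2 * d) := mul_le_mul_of_nonneg_left hbig (by linarith)
  nlinarith [hg2, h13, h14]

theorem tower {δ : ℝ} (hδ : 0 < δ) (hδ1 : δ ≤ 1) :
    ∀ (j : ℕ) (x : ℝ) (d N : ℕ), 4 ≤ x → 4 * (d : ℝ) ≤ x → (N : ℝ) ≤ Real.exp^[j] x →
      1280 * Real.log x ≤ δ ^ (j + 2) * d → PP N d (δ * (4 * j + 1)) := by
  intro j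
  induction j with
  | zero =>
    intro x d N hx hdx hN hlog
    have h1 : PP N d δ := by
      refine PP_base hδ hδ1 ?_
      rcases Nat.eq_zero_or_pos N with h0 | h0
      · subst h0
        simp only [Nat.cast_zero, mul_zero, Real.log_zero]
        positivity
      · have hN1 : (1 : ℝ) ≤ N := by exact_mod_cast h0
        simp only [Function.iterate_zero, id] at hN
        have h2 : Real.log (2 * N) ≤ Real.log (x * x) :=
          Real.log_le_log (by linarith) (by nlinarith)
        have h2' : Real.log (x * x) = Real.log x + Real.log x :=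
          Real.log_mul (by linarith) (by linarith)
        rw [h2'] at h2
        have h3 : 0 ≤ Real.log x := Real.log_nonneg (by linarith)
        have h4 : δ ^ (0 + 2) = δ ^ 2 := rfl
        rw [h4] at hlog
        nlinarith
    exact h1.mono (by simp)
  | succ j ih =>
    intro x d N hx hdx hN hlog
    have hlx : 1 ≤ Real.log x := by
      rw [Real.le_log_iff_exp_le (by linarith)]
      have := Real.exp_one_lt_d9
      linarith
    have hd0 : (0 : ℝ) ≤ d := by positivity
    have hpw : δ ^ (j + 1 + 2) ≤ δ ^ 3 := pow_le_pow_of_le_one hδ.le hδ1 (by omega)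
    have hδ3 : 1280 * Real.log x ≤ δ ^ 3 * d :=
      hlog.trans (mul_le_mul_of_nonneg_right hpw hd0)
    have hδ2 : δ ^ 3 * d ≤ δ ^ 2 * d := by
      have : δ ^ 3 ≤ δ ^ 2 := pow_le_pow_of_le_one hδ.le hδ1 (by omega)
      exact mul_le_mul_of_nonneg_right this hd0
    have hδ1' : δ ^ 3 * d ≤ δ * d := by
      have : δ ^ 3 ≤ δ ^ 1 := pow_le_pow_of_le_one hδ.le hδ1 (by omega)
      rw [pow_one] at this
      exact mul_le_mul_of_nonneg_right this hd0
    have hδd : 1280 ≤ δ * d := by linarith
    have hdbig : (1280 : ℝ) ≤ d := by nlinarith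
    have hdn : 1280 ≤ d := by exact_mod_cast hdbig
    set q : ℕ := ⌈δ * d⌉₊ with hq
    have hq1 : δ * d ≤ q := Nat.le_ceil _
    have hq2 : (q : ℝ) < δ * d + 1 := Nat.ceil_lt_add_one (by positivity)
    have hqd : q ≤ d := by
      refine Nat.ceil_le.2 ?_
      nlinarith
    have hqpos : 1 ≤ q := by
      have : (0 : ℝ) < q := by linarith
      exact_mod_cast this
    set X : ℝ := Real.exp^[j] x with hX
    have hxX : x ≤ X := le_iterate_exp j x
    set L : ℕ := ⌊X / 2⌋₊ with hL
    have hL1 : (L : ℝ) ≤ X / 2 := Nat.floor_le (by linarith)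
    have hL2 : X / 2 < L + 1 := Nat.lt_floor_add_one _
    have hLd : d ≤ L := by
      have : (d : ℝ) < L + 1 := by
        have : 4 * (d : ℝ) ≤ X := hdx.trans hxX
        linarith
      have : d < L + 1 := by exact_mod_cast this
      omega
    have hPq : PP (2 * L) q (δ * (4 * j + 1)) := by
      refine ih x q (2 * L) hx ?_ ?_ ?_
      · have : (q : ℝ) ≤ d := by exact_mod_cast hqd
        linarith
      · push_cast
        linarith
      · calc 1280 * Real.log x ≤ δ ^ (j + 1 + 2) * d := hlog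
          _ = δ ^ (j + 2) * (δ * d) := by ring
          _ ≤ δ ^ (j + 2) * q := mul_le_mul_of_nonneg_left hq1 (by positivity)
    have hN' : (N : ℝ) ≤ Real.exp X := by
      rw [Function.iterate_succ_apply'] at hN
      exact hN
    have hlog16 : Real.log (16 * d) ≤ δ ^ 2 * d / 256 := by
      have h1 : Real.log (16 * d) ≤ Real.log (x * x * x) := by
        refine Real.log_le_log (by positivity) ?_
        have : 4 * x ≤ x * x * x := by nlinarith [mul_self_nonneg x]
        linarith
      have h1' : Real.log (x * x * x) = Real.log x + Real.log x + Real.log x := by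
        rw [Real.log_mul (by positivity) (by positivity), Real.log_mul (by positivity)
          (by positivity)]
      rw [h1'] at h1
      linarith
    have hstep := PP_step (N := N) (d := d) (p := 2 * q) (g := q) hPq (by positivity) (by omega)
      hLd (by omega) (by omega) (by omega)
      (fun r h hr hrh => num_step hδ (by omega) (by omega) hqpos hq1 hlog16 (by linarith)
        (by linarith) hN' r h hr hrh)
    refine hstep.mono ?_
    have h1 : (((2 * q + q + 1 : ℕ) : ℝ)) / d ≤ 4 * δ := by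
      rw [div_le_iff₀ (by linarith)]
      push_cast
      linarith
    push_cast at h1 ⊢
    linarith

end Pool.Agent.helper36.MD
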